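import Mathlib

/-!
# Abstract fixed point problem of the module EIG (MP_15d50e_gt)
-/

open Set

namespace FB.Eig

/-- Data of the abstract eigenvalue problem. -/
structure EData (X : Type) [NormedAddCommGroup X] [NormedSpace ℝ X] where
  p0 : ℝ
  l : X →L[ℝ] ℝ
  A0 : X
  R : X →L[ℝ] X
  U : X →L[ℝ] X
  V : X →L[ℝ] X
  G0 : X
  F0 : X
  fF : X →L[ℝ] ℝ
  fG : X →L[ℝ] ℝ
  β : ℝ

variable {X : Type} [NormedAddCommGroup X] [NormedSpace ℝ X]

/-- Bounds on the data. -/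
structure EData.Bd (D : EData X) (K k : ℝ) : Prop where
  hK : 1 ≤ K
  hk : 0 < k
  small : 1000 * K ^ 6 * k ≤ 1
  p0 : |D.p0| ≤ K * k ^ 2
  l : ‖D.l‖ ≤ K * k ^ 2
  A0 : ‖D.A0‖ ≤ K
  R : ‖D.R‖ ≤ K * k
  U : ‖D.U‖ ≤ K * k
  V : ‖D.V‖ ≤ K * k
  G0 : ‖D.G0‖ ≤ K * k ^ 3
  F0 : ‖D.F0‖ ≤ K * k ^ 3
  fF : ‖D.fF‖ ≤ K * k ^ 3
  fG : ‖D.fG‖ ≤ K * k ^ 3
  β : k ^ 2 ≤ K * |D.β|

namespace EData

variable (D : EData X) {K k : ℝ}

/-- the constant `β'` as a function of `b'` -/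
def be (x : X) : ℝ := D.p0 + D.l x

/-- `a'` as a function of `b'` -/
noncomputable def al (x : X) : X := D.be x • D.A0 + D.R x

/-- the new `b'` -/
noncomputable def xn (σ : ℝ) (x : X) : X :=
  D.al x - σ • (D.G0 + D.U (D.al x + x)) + D.be x • D.F0 + D.V (D.al x - x)

/-- the new `σ` -/
noncomputable def sn (σ : ℝ) (x : X) : ℝ :=
  (D.be x + D.fF (D.al x - x) - σ * D.fG (D.al x + x)) / D.β

variable {D}

theorem Bd.small' (h : D.Bd K k) : K * k ≤ 1 / 1000 ∧ K ^ 2 * k ≤ 1 / 1000 ∧ K ^ 3 * k ≤ 1 / 1000 ∧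
    K ^ 4 * k ≤ 1 / 1000 ∧ K ^ 5 * k ≤ 1 / 1000 ∧ K ^ 6 * k ≤ 1 / 1000 ∧ k ≤ 1 / 1000 := by
  have hK := h.hK
  have hk := h.hk
  have h6 : K ^ 6 * k ≤ 1 / 1000 := by linarith [h.small]
  have key : ∀ i ≤ 6, K ^ i * k ≤ 1 / 1000 := fun i hi =>
    (mul_le_mul_of_nonneg_right (pow_le_pow_right₀ hK hi) hk.le).trans h6
  have h0 := key 0 (by norm_num)
  have h1 := key 1 (by norm_num)
  rw [pow_zero, one_mul] at h0
  rw [pow_one] at h1
  exact ⟨h1, key 2 (by norm_num), key 3 (by norm_num), key 4 (by norm_num), key 5 (by norm_num),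
    h6, h0⟩

theorem norm_apply_le {Y : Type} [NormedAddCommGroup Y] [NormedSpace ℝ Y] (T : X →L[ℝ] Y)
    {c r : ℝ} (hT : ‖T‖ ≤ c) {x : X} (hx : ‖x‖ ≤ r) (hc : 0 ≤ c) : ‖T x‖ ≤ c * r :=
  (T.le_opNorm x).trans (mul_le_mul hT hx (norm_nonneg _) hc)

theorem abs_be_le (h : D.Bd K k) {x : X} (hx : ‖x‖ ≤ 4 * K ^ 2 * k ^ 2) :
    |D.be x| ≤ 2 * K * k ^ 2 := by
  obtain ⟨h1, h2, h3, h4, h5, h6, h0⟩ := h.small'
  have hK := h.hK
  have hk := h.hk
  have e1 : |D.l x| ≤ K * k ^ 2 * (4 * K ^ 2 * k ^ 2) := norm_apply_le D.l h.l hx (by positivity)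
  have e2 : |D.be x| ≤ |D.p0| + |D.l x| := abs_add_le _ _
  have e3 : K * k ^ 2 * (4 * K ^ 2 * k ^ 2) ≤ K * k ^ 2 * 1 := by
    apply mul_le_mul_of_nonneg_left _ (by positivity)
    have : 4 * K ^ 2 * k ^ 2 = 4 * (K * k) * (K * k) := by ring
    rw [this]
    have : 0 ≤ K * k := by positivity
    nlinarith
  linarith [h.p0]

theorem norm_al_le (h : D.Bd K k) {x : X} (hx : ‖x‖ ≤ 4 * K ^ 2 * k ^ 2) :
    ‖D.al x‖ ≤ 3 * K ^ 2 * k ^ 2 := by
  obtain ⟨h1, h2, h3, h4, h5, h6, h0⟩ := h.small'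
  have hK := h.hK
  have hk := h.hk
  have e1 : ‖D.R x‖ ≤ K * k * (4 * K ^ 2 * k ^ 2) := norm_apply_le D.R h.R hx (by positivity)
  have e2 : ‖D.be x • D.A0‖ ≤ 2 * K * k ^ 2 * K := by
    rw [norm_smul, Real.norm_eq_abs]
    exact mul_le_mul (abs_be_le h hx) h.A0 (norm_nonneg _) (by positivity)
  have e3 : ‖D.al x‖ ≤ ‖D.be x • D.A0‖ + ‖D.R x‖ := norm_add_le _ _
  have e4 : K * k * (4 * K ^ 2 * k ^ 2) ≤ 1 / 1000 * (4 * K ^ 2 * k ^ 2) :=
    mul_le_mul_of_nonneg_right h1 (by positivity)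
  have e5 : 0 ≤ K ^ 2 * k ^ 2 := by positivity
  nlinarith

theorem norm_add_al_le (h : D.Bd K k) {x : X} (hx : ‖x‖ ≤ 4 * K ^ 2 * k ^ 2) :
    ‖D.al x + x‖ ≤ 7 * K ^ 2 * k ^ 2 := by
  have := norm_al_le h hx
  have := norm_add_le (D.al x) x
  linarith

theorem norm_sub_al_le (h : D.Bd K k) {x : X} (hx : ‖x‖ ≤ 4 * K ^ 2 * k ^ 2) :
    ‖D.al x - x‖ ≤ 7 * K ^ 2 * k ^ 2 := by
  have := norm_al_le h hx
  have := norm_sub_le (D.al x) x
  linarith

theorem norm_gu_le (h : D.Bd K k) {x : X} (hx : ‖x‖ ≤ 4 * K ^ 2 * k ^ 2) :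
    ‖D.G0 + D.U (D.al x + x)‖ ≤ 8 * K ^ 3 * k ^ 3 := by
  have hK := h.hK
  have hk := h.hk
  have e1 : ‖D.U (D.al x + x)‖ ≤ K * k * (7 * K ^ 2 * k ^ 2) :=
    norm_apply_le D.U h.U (norm_add_al_le h hx) (by positivity)
  have e2 := norm_add_le D.G0 (D.U (D.al x + x))
  have e3 : K * k ^ 3 ≤ K ^ 3 * k ^ 3 := by
    apply mul_le_mul_of_nonneg_right _ (by positivity)
    calc K = K ^ 1 := (pow_one K).symm
      _ ≤ K ^ 3 := pow_le_pow_right₀ hK (by norm_num)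
  have e4 : K * k * (7 * K ^ 2 * k ^ 2) = 7 * (K ^ 3 * k ^ 3) := by ring
  linarith [h.G0]

theorem norm_xn_le (h : D.Bd K k) {σ : ℝ} {x : X} (hσ : |σ| ≤ 3 * K ^ 2)
    (hx : ‖x‖ ≤ 4 * K ^ 2 * k ^ 2) : ‖D.xn σ x‖ ≤ 4 * K ^ 2 * k ^ 2 := by
  obtain ⟨h1, h2, h3, h4, h5, h6, h0⟩ := h.small'
  have hK := h.hK
  have hk := h.hk
  have e1 := norm_al_le h hx
  have e2 : ‖σ • (D.G0 + D.U (D.al x + x))‖ ≤ 3 * K ^ 2 * (8 * K ^ 3 * k ^ 3) := by
    rw [norm_smul, Real.norm_eq_abs]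
    exact mul_le_mul hσ (norm_gu_le h hx) (norm_nonneg _) (by positivity)
  have e3 : ‖D.be x • D.F0‖ ≤ 2 * K * k ^ 2 * (K * k ^ 3) := by
    rw [norm_smul, Real.norm_eq_abs]
    exact mul_le_mul (abs_be_le h hx) h.F0 (norm_nonneg _) (by positivity)
  have e4 : ‖D.V (D.al x - x)‖ ≤ K * k * (7 * K ^ 2 * k ^ 2) :=
    norm_apply_le D.V h.V (norm_sub_al_le h hx) (by positivity)
  have e5 : ‖D.xn σ x‖ ≤ ‖D.al x‖ + ‖σ • (D.G0 + D.U (D.al x + x))‖ + ‖D.be x • D.F0‖ +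
      ‖D.V (D.al x - x)‖ := by
    unfold xn
    refine (norm_add_le _ _).trans (add_le_add_left ?_ _)
    refine (norm_add_le _ _).trans (add_le_add_left ?_ _)
    exact norm_sub_le _ _
  have p : 0 ≤ k ^ 2 := by positivity
  have p2 : k ^ 2 ≤ K ^ 2 * k ^ 2 := by
    nlinarith [one_le_pow₀ (n := 2) hK]
  have q1 : 3 * K ^ 2 * (8 * K ^ 3 * k ^ 3) ≤ 24 / 1000 * k ^ 2 := by
    have : 3 * K ^ 2 * (8 * K ^ 3 * k ^ 3) = 24 * (K ^ 5 * k) * k ^ 2 := by ring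
    rw [this]
    nlinarith
  have q2 : 2 * K * k ^ 2 * (K * k ^ 3) ≤ 2 / 1000 * k ^ 2 := by
    have : 2 * K * k ^ 2 * (K * k ^ 3) = 2 * ((K * k) * (K * k) * k) * k ^ 2 := by ring
    rw [this]
    have a1 : (K * k) * (K * k) * k ≤ 1 / 1000 := by
      have b0 : 0 ≤ K * k := by positivity
      have b1 : (K * k) * (K * k) ≤ 1 / 1000 := by nlinarith
      have b2 : 0 ≤ (K * k) * (K * k) := by positivity
      nlinarith
    nlinarith
  have q3 : K * k * (7 * K ^ 2 * k ^ 2) ≤ 7 / 1000 * k ^ 2 := by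
    have : K * k * (7 * K ^ 2 * k ^ 2) = 7 * (K ^ 3 * k) * k ^ 2 := by ring
    rw [this]
    nlinarith
  nlinarith

theorem abs_sn_le (h : D.Bd K k) {σ : ℝ} {x : X} (hσ : |σ| ≤ 3 * K ^ 2)
    (hx : ‖x‖ ≤ 4 * K ^ 2 * k ^ 2) : |D.sn σ x| ≤ 3 * K ^ 2 := by
  obtain ⟨h1, h2, h3, h4, h5, h6, h0⟩ := h.small'
  have hK := h.hK
  have hk := h.hk
  have hβ : 0 < |D.β| := by
    have h9 := h.β
    by_contra hc
    have : |D.β| = 0 := le_antisymm (not_lt.1 hc) (abs_nonneg _)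
    rw [this, mul_zero] at h9
    have : 0 < k ^ 2 := by positivity
    linarith
  unfold sn
  rw [abs_div, div_le_iff₀ hβ]
  have e1 := abs_be_le h hx
  have e2 : |D.fF (D.al x - x)| ≤ K * k ^ 3 * (7 * K ^ 2 * k ^ 2) :=
    norm_apply_le D.fF h.fF (norm_sub_al_le h hx) (by positivity)
  have e3 : |D.fG (D.al x + x)| ≤ K * k ^ 3 * (7 * K ^ 2 * k ^ 2) :=
    norm_apply_le D.fG h.fG (norm_add_al_le h hx) (by positivity)
  have e4 : |σ * D.fG (D.al x + x)| ≤ 3 * K ^ 2 * (K * k ^ 3 * (7 * K ^ 2 * k ^ 2)) := by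
    rw [abs_mul]
    exact mul_le_mul hσ e3 (abs_nonneg _) (by positivity)
  have e5 : |D.be x + D.fF (D.al x - x) - σ * D.fG (D.al x + x)| ≤ |D.be x| +
      |D.fF (D.al x - x)| + |σ * D.fG (D.al x + x)| :=
    (abs_sub _ _).trans (add_le_add_left (abs_add_le _ _) _)
  have p : 0 ≤ k ^ 2 := by positivity
  have p3 : 0 ≤ K * k ^ 2 := by positivity
  have q1 : K * k ^ 3 * (7 * K ^ 2 * k ^ 2) ≤ 7 / 1000 * (K * k ^ 2) := by
    have : K * k ^ 3 * (7 * K ^ 2 * k ^ 2) = 7 * ((K ^ 2 * k) * k ^ 2) * (K * k ^ 2) := by ring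
    rw [this]
    have a1 : (K ^ 2 * k) * k ^ 2 ≤ 1 / 1000 := by
      have : k ^ 2 ≤ 1 := by nlinarith
      have : 0 ≤ K ^ 2 * k := by positivity
      nlinarith
    nlinarith
  have q2 : 3 * K ^ 2 * (K * k ^ 3 * (7 * K ^ 2 * k ^ 2)) ≤ 21 / 1000 * (K * k ^ 2) := by
    have : 3 * K ^ 2 * (K * k ^ 3 * (7 * K ^ 2 * k ^ 2)) =
      21 * ((K ^ 4 * k) * k ^ 2) * (K * k ^ 2) := by ring
    rw [this]
    have a1 : (K ^ 4 * k) * k ^ 2 ≤ 1 / 1000 := by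
      have : k ^ 2 ≤ 1 := by nlinarith
      have : 0 ≤ K ^ 4 * k := by positivity
      nlinarith
    nlinarith
  have q3 : 3 * K * k ^ 2 ≤ 3 * K ^ 2 * |D.β| := by
    have := mul_le_mul_of_nonneg_left h.β (by positivity : 0 ≤ 3 * K)
    linarith
  linarith

/-- Lipschitz estimates -/
theorem be_sub (x y : X) : D.be x - D.be y = D.l (x - y) := by
  unfold be; rw [map_sub]; ring

theorem al_sub (x y : X) : D.al x - D.al y = D.l (x - y) • D.A0 + D.R (x - y) := by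
  unfold al
  rw [map_sub D.R, ← be_sub, sub_smul]
  abel

theorem norm_al_sub_le (h : D.Bd K k) (x y : X) : ‖D.al x - D.al y‖ ≤ 2 * K * k * ‖x - y‖ := by
  obtain ⟨h1, h2, h3, h4, h5, h6, h0⟩ := h.small'
  have hK := h.hK
  have hk := h.hk
  rw [al_sub]
  have n0 := norm_nonneg (x - y)
  have e1 : ‖D.l (x - y) • D.A0‖ ≤ K * k ^ 2 * ‖x - y‖ * K := by
    rw [norm_smul]
    exact mul_le_mul (norm_apply_le D.l h.l le_rfl (by positivity)) h.A0 (norm_nonneg _)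
      (by positivity)
  have e2 : ‖D.R (x - y)‖ ≤ K * k * ‖x - y‖ := norm_apply_le D.R h.R le_rfl (by positivity)
  have e3 : K * k ^ 2 * ‖x - y‖ * K ≤ K * k * ‖x - y‖ := by
    have : K * k ^ 2 * ‖x - y‖ * K = (K * k) * (K * k * ‖x - y‖) := by ring
    rw [this]
    have : 0 ≤ K * k * ‖x - y‖ := by positivity
    nlinarith
  have := norm_add_le (D.l (x - y) • D.A0) (D.R (x - y))
  linarith

theorem norm_alp_sub_le (h : D.Bd K k) (x y : X) :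
    ‖(D.al x + x) - (D.al y + y)‖ ≤ 2 * ‖x - y‖ := by
  obtain ⟨h1, h2, h3, h4, h5, h6, h0⟩ := h.small'
  have e := norm_al_sub_le h x y
  have n0 := norm_nonneg (x - y)
  have : (D.al x + x) - (D.al y + y) = (D.al x - D.al y) + (x - y) := by abel
  rw [this]
  have := norm_add_le (D.al x - D.al y) (x - y)
  nlinarith

theorem norm_alm_sub_le (h : D.Bd K k) (x y : X) :
    ‖(D.al x - x) - (D.al y - y)‖ ≤ 2 * ‖x - y‖ := by
  obtain ⟨h1, h2, h3, h4, h5, h6, h0⟩ := h.small'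
  have e := norm_al_sub_le h x y
  have n0 := norm_nonneg (x - y)
  have : (D.al x - x) - (D.al y - y) = (D.al x - D.al y) - (x - y) := by abel
  rw [this]
  have := norm_sub_le (D.al x - D.al y) (x - y)
  nlinarith

theorem norm_xn_sub_le (h : D.Bd K k) {σ τ : ℝ} {x y : X} (hτ : |τ| ≤ 3 * K ^ 2)
    (hx : ‖x‖ ≤ 4 * K ^ 2 * k ^ 2) :
    ‖D.xn σ x - D.xn τ y‖ ≤ (1 / 10) * ‖x - y‖ + (1 / 10) * (k * |σ - τ|) := by
  obtain ⟨h1, h2, h3, h4, h5, h6, h0⟩ := h.small'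
  have hK := h.hK
  have hk := h.hk
  have n0 := norm_nonneg (x - y)
  have n1 := abs_nonneg (σ - τ)
  have key : D.xn σ x - D.xn τ y = (D.al x - D.al y) - (σ - τ) • (D.G0 + D.U (D.al x + x)) -
      τ • D.U ((D.al x + x) - (D.al y + y)) + (D.be x - D.be y) • D.F0 +
      D.V ((D.al x - x) - (D.al y - y)) := by
    have k1 : D.V ((D.al x - x) - (D.al y - y)) = D.V (D.al x - x) - D.V (D.al y - y) :=
      map_sub _ _ _
    have k2 : D.U ((D.al x + x) - (D.al y + y)) = D.U (D.al x + x) - D.U (D.al y + y) :=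
      map_sub _ _ _
    rw [k1, k2]
    unfold xn
    module
  rw [key]
  have e1 := norm_al_sub_le h x y
  have e2 : ‖(σ - τ) • (D.G0 + D.U (D.al x + x))‖ ≤ |σ - τ| * (8 * K ^ 3 * k ^ 3) := by
    rw [norm_smul, Real.norm_eq_abs]
    exact mul_le_mul_of_nonneg_left (norm_gu_le h hx) n1
  have e3 : ‖τ • D.U ((D.al x + x) - (D.al y + y))‖ ≤ 3 * K ^ 2 * (K * k * (2 * ‖x - y‖)) := by
    rw [norm_smul, Real.norm_eq_abs]
    exact mul_le_mul hτ (norm_apply_le D.U h.U (norm_alp_sub_le h x y) (by positivity))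
      (norm_nonneg _) (by positivity)
  have e4 : ‖(D.be x - D.be y) • D.F0‖ ≤ K * k ^ 2 * ‖x - y‖ * (K * k ^ 3) := by
    rw [norm_smul, be_sub]
    exact mul_le_mul (norm_apply_le D.l h.l le_rfl (by positivity)) h.F0 (norm_nonneg _)
      (by positivity)
  have e5 : ‖D.V ((D.al x - x) - (D.al y - y))‖ ≤ K * k * (2 * ‖x - y‖) :=
    norm_apply_le D.V h.V (norm_alm_sub_le h x y) (by positivity)
  have e6 : ‖(D.al x - D.al y) - (σ - τ) • (D.G0 + D.U (D.al x + x)) -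
      τ • D.U ((D.al x + x) - (D.al y + y)) + (D.be x - D.be y) • D.F0 +
      D.V ((D.al x - x) - (D.al y - y))‖ ≤ ‖D.al x - D.al y‖ +
      ‖(σ - τ) • (D.G0 + D.U (D.al x + x))‖ + ‖τ • D.U ((D.al x + x) - (D.al y + y))‖ +
      ‖(D.be x - D.be y) • D.F0‖ + ‖D.V ((D.al x - x) - (D.al y - y))‖ := by
    refine (norm_add_le _ _).trans (add_le_add_left ?_ _)
    refine (norm_add_le _ _).trans (add_le_add_left ?_ _)
    refine (norm_sub_le _ _).trans (add_le_add_left ?_ _)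
    exact norm_sub_le _ _
  have q1 : 2 * K * k * ‖x - y‖ ≤ 2 / 1000 * ‖x - y‖ := by
    have : 2 * K * k ≤ 2 / 1000 := by linarith
    exact mul_le_mul_of_nonneg_right this n0
  have q2 : |σ - τ| * (8 * K ^ 3 * k ^ 3) ≤ 8 / 1000 * (k * |σ - τ|) := by
    have e : |σ - τ| * (8 * K ^ 3 * k ^ 3) = 8 * ((K ^ 3 * k) * k) * (k * |σ - τ|) := by ring
    rw [e]
    have a1 : (K ^ 3 * k) * k ≤ 1 / 1000 := by
      have : 0 ≤ K ^ 3 * k := by positivity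
      nlinarith
    have : 0 ≤ k * |σ - τ| := by positivity
    nlinarith
  have q3 : 3 * K ^ 2 * (K * k * (2 * ‖x - y‖)) ≤ 6 / 1000 * ‖x - y‖ := by
    have e : 3 * K ^ 2 * (K * k * (2 * ‖x - y‖)) = 6 * (K ^ 3 * k) * ‖x - y‖ := by ring
    rw [e]
    have : 6 * (K ^ 3 * k) ≤ 6 / 1000 := by linarith
    exact mul_le_mul_of_nonneg_right this n0
  have q4 : K * k ^ 2 * ‖x - y‖ * (K * k ^ 3) ≤ 1 / 1000 * ‖x - y‖ := by
    have e : K * k ^ 2 * ‖x - y‖ * (K * k ^ 3) = ((K ^ 2 * k) * k ^ 4) * ‖x - y‖ := by ring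
    rw [e]
    have a1 : (K ^ 2 * k) * k ^ 4 ≤ 1 / 1000 := by
      have a2 : k ^ 4 ≤ 1 := pow_le_one₀ hk.le (by linarith)
      have : 0 ≤ K ^ 2 * k := by positivity
      nlinarith
    exact mul_le_mul_of_nonneg_right a1 n0
  have q5 : K * k * (2 * ‖x - y‖) ≤ 2 / 1000 * ‖x - y‖ := by
    have e : K * k * (2 * ‖x - y‖) = 2 * (K * k) * ‖x - y‖ := by ring
    rw [e]
    have : 2 * (K * k) ≤ 2 / 1000 := by linarith
    exact mul_le_mul_of_nonneg_right this n0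
  have : 0 ≤ k * |σ - τ| := by positivity
  linarith

theorem abs_sn_sub_le (h : D.Bd K k) {σ τ : ℝ} {x y : X} (hτ : |τ| ≤ 3 * K ^ 2)
    (hx : ‖x‖ ≤ 4 * K ^ 2 * k ^ 2) :
    k * |D.sn σ x - D.sn τ y| ≤ (1 / 10) * ‖x - y‖ + (1 / 10) * (k * |σ - τ|) := by
  obtain ⟨h1, h2, h3, h4, h5, h6, h0⟩ := h.small'
  have hK := h.hK
  have hk := h.hk
  have n0 := norm_nonneg (x - y)
  have n1 := abs_nonneg (σ - τ)
  have hβ : 0 < |D.β| := by
    have h9 := h.β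
    by_contra hc
    have : |D.β| = 0 := le_antisymm (not_lt.1 hc) (abs_nonneg _)
    rw [this, mul_zero] at h9
    have : 0 < k ^ 2 := by positivity
    linarith
  have key : D.sn σ x - D.sn τ y = ((D.be x - D.be y) + D.fF ((D.al x - x) - (D.al y - y)) -
      (σ - τ) * D.fG (D.al x + x) - τ * D.fG ((D.al x + x) - (D.al y + y))) / D.β := by
    have k1 : D.fF ((D.al x - x) - (D.al y - y)) = D.fF (D.al x - x) - D.fF (D.al y - y) :=
      map_sub _ _ _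
    have k2 : D.fG ((D.al x + x) - (D.al y + y)) = D.fG (D.al x + x) - D.fG (D.al y + y) :=
      map_sub _ _ _
    rw [k1, k2]
    unfold sn
    ring
  rw [key, abs_div]
  have e1 : |D.be x - D.be y| ≤ K * k ^ 2 * ‖x - y‖ := by
    rw [be_sub]
    exact norm_apply_le D.l h.l le_rfl (by positivity)
  have e2 : |D.fF ((D.al x - x) - (D.al y - y))| ≤ K * k ^ 3 * (2 * ‖x - y‖) :=
    norm_apply_le D.fF h.fF (norm_alm_sub_le h x y) (by positivity)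
  have e3 : |(σ - τ) * D.fG (D.al x + x)| ≤ |σ - τ| * (K * k ^ 3 * (7 * K ^ 2 * k ^ 2)) := by
    rw [abs_mul]
    exact mul_le_mul_of_nonneg_left (norm_apply_le D.fG h.fG (norm_add_al_le h hx)
      (by positivity)) n1
  have e4 : |τ * D.fG ((D.al x + x) - (D.al y + y))| ≤ 3 * K ^ 2 * (K * k ^ 3 * (2 * ‖x - y‖)) := by
    rw [abs_mul]
    exact mul_le_mul hτ (norm_apply_le D.fG h.fG (norm_alp_sub_le h x y) (by positivity))
      (abs_nonneg _) (by positivity)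
  have e5 : |(D.be x - D.be y) + D.fF ((D.al x - x) - (D.al y - y)) -
      (σ - τ) * D.fG (D.al x + x) - τ * D.fG ((D.al x + x) - (D.al y + y))| ≤
      |D.be x - D.be y| + |D.fF ((D.al x - x) - (D.al y - y))| +
      |(σ - τ) * D.fG (D.al x + x)| + |τ * D.fG ((D.al x + x) - (D.al y + y))| := by
    refine (abs_sub _ _).trans (add_le_add_left ?_ _)
    refine (abs_sub _ _).trans (add_le_add_left ?_ _)
    exact abs_add_le _ _
  rw [← mul_div_assoc, div_le_iff₀ hβ]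
  have hr : 0 ≤ (1 / 10) * ‖x - y‖ + (1 / 10) * (k * |σ - τ|) := by positivity
  have q0 : k ^ 2 * ((1 / 10) * ‖x - y‖ + (1 / 10) * (k * |σ - τ|)) ≤
      K * (((1 / 10) * ‖x - y‖ + (1 / 10) * (k * |σ - τ|)) * |D.β|) := by
    calc k ^ 2 * ((1 / 10) * ‖x - y‖ + (1 / 10) * (k * |σ - τ|)) ≤
        K * |D.β| * ((1 / 10) * ‖x - y‖ + (1 / 10) * (k * |σ - τ|)) :=
          mul_le_mul_of_nonneg_right h.β hr
      _ = _ := by ring
  have hKp : 0 < K := by linarith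
  refine le_of_mul_le_mul_left ?_ hKp
  refine le_trans ?_ q0
  have q1 : K * (k * |(D.be x - D.be y) + D.fF ((D.al x - x) - (D.al y - y)) -
      (σ - τ) * D.fG (D.al x + x) - τ * D.fG ((D.al x + x) - (D.al y + y))|) ≤
      K * (k * (K * k ^ 2 * ‖x - y‖ + K * k ^ 3 * (2 * ‖x - y‖) +
        |σ - τ| * (K * k ^ 3 * (7 * K ^ 2 * k ^ 2)) + 3 * K ^ 2 * (K * k ^ 3 * (2 * ‖x - y‖)))) := by
    apply mul_le_mul_of_nonneg_left _ hKp.le
    apply mul_le_mul_of_nonneg_left _ hk.le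
    linarith
  refine q1.trans ?_
  have id1 : K * (k * (K * k ^ 2 * ‖x - y‖ + K * k ^ 3 * (2 * ‖x - y‖) +
        |σ - τ| * (K * k ^ 3 * (7 * K ^ 2 * k ^ 2)) + 3 * K ^ 2 * (K * k ^ 3 * (2 * ‖x - y‖)))) =
      k ^ 2 * (((K ^ 2 * k) + 2 * (K ^ 2 * k) * k + 6 * (K ^ 4 * k) * k) * ‖x - y‖ +
        (7 * (K ^ 4 * k) * k ^ 2) * (k * |σ - τ|)) := by ring
  rw [id1]
  apply mul_le_mul_of_nonneg_left _ (by positivity)
  have a1 : (K ^ 2 * k) + 2 * (K ^ 2 * k) * k + 6 * (K ^ 4 * k) * k ≤ 1 / 10 := by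
    have : 0 ≤ K ^ 2 * k := by positivity
    have : 0 ≤ K ^ 4 * k := by positivity
    nlinarith
  have a2 : 7 * (K ^ 4 * k) * k ^ 2 ≤ 1 / 10 := by
    have : 0 ≤ K ^ 4 * k := by positivity
    have : k ^ 2 ≤ 1 := by nlinarith
    nlinarith
  have : 0 ≤ k * |σ - τ| := by positivity
  exact add_le_add (mul_le_mul_of_nonneg_right a1 n0) (mul_le_mul_of_nonneg_right a2 this)

/-- The closed set of admissible pairs `(k σ, x)`. -/
def BS (X : Type) [NormedAddCommGroup X] (K k : ℝ) : Set (ℝ × X) :=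
  {p | |p.1| ≤ k * (3 * K ^ 2) ∧ ‖p.2‖ ≤ 4 * K ^ 2 * k ^ 2}

variable (D) in
/-- the map whose fixed point is the solution -/
noncomputable def Ψ (k : ℝ) (p : ℝ × X) : ℝ × X := (k * D.sn (p.1 / k) p.2, D.xn (p.1 / k) p.2)

theorem exists_fix [CompleteSpace X] (h : D.Bd K k) : ∃ (σ : ℝ) (x : X), |σ| ≤ 3 * K ^ 2 ∧
    ‖x‖ ≤ 4 * K ^ 2 * k ^ 2 ∧ D.xn σ x = x ∧
    D.be x + D.fF (D.al x - x) = σ * (D.β + D.fG (D.al x + x)) := by
  have hK := h.hK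
  have hk := h.hk
  have hβ : D.β ≠ 0 := by
    intro hc
    have h9 := h.β
    rw [hc, abs_zero, mul_zero] at h9
    have : 0 < k ^ 2 := by positivity
    linarith
  have hdiv : ∀ p ∈ BS X K k, |p.1 / k| ≤ 3 * K ^ 2 := by
    intro p hp
    rw [abs_div, abs_of_pos hk, div_le_iff₀ hk, mul_comm]
    exact hp.1
  have hmaps : MapsTo (D.Ψ k) (BS X K k) (BS X K k) := by
    intro p hp
    refine ⟨?_, norm_xn_le h (hdiv p hp) hp.2⟩
    show |k * D.sn (p.1 / k) p.2| ≤ k * (3 * K ^ 2)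
    rw [abs_mul, abs_of_pos hk]
    exact mul_le_mul_of_nonneg_left (abs_sn_le h (hdiv p hp) hp.2) hk.le
  have hclosed : IsClosed (BS X K k) := by
    apply IsClosed.inter
    · exact isClosed_le (continuous_abs.comp continuous_fst) continuous_const
    · exact isClosed_le (continuous_norm.comp continuous_snd) continuous_const
  have hcontr : ContractingWith (1 / 2 : NNReal) (hmaps.restrict (D.Ψ k) (BS X K k) (BS X K k)) := by
    refine ⟨by norm_num [← NNReal.coe_lt_coe], LipschitzWith.of_dist_le_mul ?_⟩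
    rintro ⟨p, hp⟩ ⟨q, hq⟩
    show dist (D.Ψ k p) (D.Ψ k q) ≤ ((1 / 2 : NNReal) : ℝ) * dist p q
    have d1 : k * |p.1 / k - q.1 / k| = |p.1 - q.1| := by
      rw [← sub_div, abs_div, abs_of_pos hk]
      field_simp
    have d2 : |p.1 - q.1| ≤ dist p q := by
      rw [Prod.dist_eq, Real.dist_eq]
      exact le_max_left _ _
    have d3 : ‖p.2 - q.2‖ ≤ dist p q := by
      rw [Prod.dist_eq, ← dist_eq_norm]
      exact le_max_right _ _
    have f1 := norm_xn_sub_le h (σ := p.1 / k) (τ := q.1 / k) (x := p.2) (y := q.2) (hdiv q hq) hp.2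
    have f2 := abs_sn_sub_le h (σ := p.1 / k) (τ := q.1 / k) (x := p.2) (y := q.2) (hdiv q hq) hp.2
    rw [d1] at f1 f2
    have hd : 0 ≤ dist p q := dist_nonneg
    have hc : ((1 / 2 : NNReal) : ℝ) = 1 / 2 := by norm_num
    rw [hc, Prod.dist_eq]
    apply max_le
    · show dist (k * D.sn (p.1 / k) p.2) (k * D.sn (q.1 / k) q.2) ≤ 1 / 2 * dist p q
      rw [Real.dist_eq, ← mul_sub, abs_mul, abs_of_pos hk]
      linarith
    · show dist (D.xn (p.1 / k) p.2) (D.xn (q.1 / k) q.2) ≤ 1 / 2 * dist p q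
      rw [dist_eq_norm]
      linarith
  have h0 : ((0 : ℝ), (0 : X)) ∈ BS X K k := by
    refine ⟨?_, ?_⟩
    · simp only [abs_zero]; positivity
    · simp only [norm_zero]; positivity
  obtain ⟨p, hp, hfix, -⟩ := ContractingWith.exists_fixedPoint' hclosed.isComplete hmaps hcontr h0
    (edist_ne_top _ _)
  have e1 : k * D.sn (p.1 / k) p.2 = p.1 := congrArg Prod.fst hfix
  have e2 : D.xn (p.1 / k) p.2 = p.2 := congrArg Prod.snd hfix
  refine ⟨p.1 / k, p.2, hdiv p hp, hp.2, e2, ?_⟩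
  have e3 : D.sn (p.1 / k) p.2 = p.1 / k := by
    rw [eq_div_iff hk.ne', mul_comm]
    exact e1
  unfold sn at e3
  rw [div_eq_iff hβ] at e3
  linarith

end EData

end FB.Eig
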