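import Mathlib
import Pool.Agent.FB.Iface

/-!
# Convolutions and the symmetry `x_{-n} = (-1)^n conj x_n` (module EIG, MP_15d50e_gt)
-/

open Complex Set
open scoped ComplexConjugate Real

namespace FB.Eig

variable {a b : ℕ → ℂ} {β : ℝ}

theorem ext_zero : ext b 0 = 0 := by simp [ext]

theorem ext_pos {k : ℕ} (hk : 0 < k) : ext b (k : ℤ) = b k := by
  have h1 : (0 : ℤ) < (k : ℤ) := by exact_mod_cast hk
  rw [ext, if_pos h1, Int.toNat_natCast]

theorem ext_neg {k : ℕ} (hk : 0 < k) : ext b (-(k : ℤ)) = (-1) ^ k * conj (b k) := by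
  have h1 : ¬ (0 : ℤ) < -(k : ℤ) := by omega
  have h2 : -(k : ℤ) < 0 := by omega
  rw [ext, if_neg h1, if_pos h2, neg_neg, Int.toNat_natCast, Int.natAbs_neg, Int.natAbs_natCast]

theorem negOne_natAbs (n : ℤ) : (-1 : ℂ) ^ n.natAbs = (-1 : ℂ) ^ n := by
  rcases Int.natAbs_eq n with h | h
  · conv_rhs => rw [h]
    rw [zpow_natCast]
  · conv_rhs => rw [h]
    rw [zpow_neg, zpow_natCast]
    rcases neg_one_pow_eq_or ℂ n.natAbs with h1 | h1 <;> rw [h1] <;> norm_num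

theorem negOne_add (m n : ℤ) : (-1 : ℂ) ^ m.natAbs * (-1) ^ n.natAbs = (-1) ^ (m + n).natAbs := by
  rw [negOne_natAbs, negOne_natAbs, negOne_natAbs, zpow_add₀ (by norm_num)]

/-- symmetric sequences -/
def IsH (x : ℤ → ℂ) : Prop := ∀ n : ℤ, x (-n) = (-1) ^ n.natAbs * conj (x n)

theorem isH_of_pos {x : ℤ → ℂ} (h0 : conj (x 0) = x 0)
    (h : ∀ k : ℕ, 0 < k → x (-(k : ℤ)) = (-1) ^ k * conj (x k)) : IsH x := by
  intro n
  rcases lt_trichotomy n 0 with hn | hn | hn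
  · obtain ⟨k, rfl⟩ : ∃ k : ℕ, n = -(k : ℤ) := ⟨n.natAbs, by omega⟩
    have hk : 0 < k := by omega
    rw [neg_neg, h k hk, Int.natAbs_neg, Int.natAbs_natCast, map_mul, conj_conj, ← mul_assoc]
    have : (-1 : ℂ) ^ k * conj ((-1 : ℂ) ^ k) = 1 := by
      rcases neg_one_pow_eq_or ℂ k with h1 | h1 <;> rw [h1] <;> simp
    rw [this, one_mul]
  · subst hn
    simp [h0]
  · obtain ⟨k, rfl⟩ : ∃ k : ℕ, n = (k : ℤ) := ⟨n.natAbs, by omega⟩
    have hk : 0 < k := by omega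
    rw [h k hk, Int.natAbs_natCast]

theorem isH_ext : IsH (ext b) := by
  refine isH_of_pos ?_ fun k hk => ?_
  · simp [ext_zero]
  · rw [ext_neg hk, ext_pos hk]

theorem isH_fC : IsH (fC a b) := by
  refine isH_of_pos ?_ fun k hk => ?_
  · simp [fC]
  · have h1 : (-(k : ℤ)) ≠ 0 := by omega
    have h2 : (k : ℤ) ≠ 0 := by omega
    rw [fC, fC, if_neg h1, if_neg h2, ext_neg hk, ext_neg hk, ext_pos hk, ext_pos hk, map_add]
    ring

theorem isH_gC : IsH (gC β a b) := by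
  refine isH_of_pos ?_ fun k hk => ?_
  · simp [gC]
  · have h1 : (-(k : ℤ)) ≠ 0 := by omega
    have h2 : (k : ℤ) ≠ 0 := by omega
    rw [gC, gC, if_neg h1, if_neg h2, ext_neg hk, ext_neg hk, ext_pos hk, ext_pos hk, map_mul,
      map_sub, Int.natAbs_neg]
    simp
    ring

theorem negOne_four {n : ℤ} (h : (4 : ℤ) ∣ n) : (-1 : ℂ) ^ n.natAbs = 1 := by
  have : Even n.natAbs := by
    rw [Int.natAbs_even]
    exact even_iff_two_dvd.2 (dvd_trans (by norm_num : (2 : ℤ) ∣ 4) h)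
  exact this.neg_one_pow

theorem isH_PP {x : ℤ → ℂ} (h : IsH x) : IsH (PP x) := by
  intro n
  unfold PP
  by_cases hn : (4 : ℤ) ∣ n
  · have hn' : (4 : ℤ) ∣ -n := (dvd_neg).2 hn
    rw [if_pos hn, if_pos hn', h n, negOne_four hn]
    simp
  · have hn' : ¬ (4 : ℤ) ∣ -n := fun hc => hn ((dvd_neg).1 hc)
    rw [if_neg hn, if_neg hn']
    simp

theorem isH_conv {x y : ℤ → ℂ} (hx : IsH x) (hy : IsH y) : IsH (conv x y) := by
  intro n
  unfold conv
  rw [← (Equiv.neg ℤ).tsum_eq (fun k => x k * y (-n - k)), conj_tsum, ← tsum_mul_left]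
  refine tsum_congr fun k => ?_
  have e1 : (-n - (Equiv.neg ℤ) k) = -(n - k) := by simp; ring
  have e2 : (Equiv.neg ℤ) k = -k := rfl
  rw [e1, e2, hx k, hy (n - k), map_mul]
  have e3 : (-1 : ℂ) ^ n.natAbs = (-1) ^ k.natAbs * (-1) ^ (n - k).natAbs := by
    rw [negOne_add]
    congr 2
    ring
  rw [e3]
  ring

/-- splitting a sum over the integers -/
theorem tsum_int_split {f : ℤ → ℂ} (hf : Summable f) :
    ∑' j : ℤ, f j = f 0 + ∑' k : ℕ, (if k = 0 then 0 else f k + f (-(k : ℤ))) := by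
  have h1 : Summable fun n : ℕ => f (n + 1) :=
    hf.comp_injective (i := fun n : ℕ => ((n : ℤ) + 1)) (fun m n h => by simpa using h)
  have h2 : Summable fun n : ℕ => f (-(n + 1)) :=
    hf.comp_injective (i := fun n : ℕ => (-((n : ℤ) + 1))) (fun m n h => by simpa using h)
  rw [tsum_of_add_one_of_neg_add_one h1 h2]
  have h3 : Summable fun k : ℕ => (if k = 0 then 0 else f k + f (-(k : ℤ))) := by
    rw [← summable_nat_add_iff 1]
    refine (h1.add h2).congr fun k => ?_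
    rw [if_neg (Nat.succ_ne_zero k)]
    push_cast
    rfl
  rw [h3.tsum_eq_zero_add, if_pos rfl, zero_add]
  have h4 : ∑' k : ℕ, (if k + 1 = 0 then 0 else f ((k + 1 : ℕ) : ℤ) + f (-((k + 1 : ℕ) : ℤ))) =
      ∑' n : ℕ, f (n + 1) + ∑' n : ℕ, f (-(n + 1)) := by
    rw [← h1.tsum_add h2]
    refine tsum_congr fun k => ?_
    rw [if_neg (Nat.succ_ne_zero k)]
    push_cast
    rfl
  rw [h4]
  ring

/-- a convolution in terms of the coefficients with nonnegative index -/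
theorem conv_split {P z : ℤ → ℂ} (n : ℤ) (hs : Summable fun j => P (n - j) * z j) :
    conv P z n = P n * z 0 +
      ∑' k : ℕ, (if k = 0 then 0 else P (n - k) * z k + P (n + k) * z (-(k : ℤ))) := by
  have h1 : conv P z n = ∑' j : ℤ, P (n - j) * z j := by
    unfold conv
    rw [← (Equiv.subLeft n).tsum_eq (fun k => P k * z (n - k))]
    refine tsum_congr fun k => ?_
    simp
  rw [h1, tsum_int_split hs, sub_zero]
  congr 1
  refine tsum_congr fun k => ?_
  rw [sub_neg_eq_add]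

/-- boundedness of a sequence with weighted sum -/
theorem norm_le_of_weight {P : ℤ → ℂ} {φ : ℝ} (hP : Summable fun m : ℤ => 2 ^ m.natAbs * ‖P m‖)
    (hφ : ∑' m : ℤ, 2 ^ m.natAbs * ‖P m‖ ≤ φ) (m : ℤ) : 2 ^ m.natAbs * ‖P m‖ ≤ φ :=
  (hP.le_tsum m fun n _ => by positivity).trans hφ

end FB.Eig
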