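import Mathlib
import Pool.Agent.FB.Iface

/-!
# The multipliers `P f`, `P f'` away from the constant (module EIG, MP_15d50e_gt)
-/

open Complex Set
open scoped ComplexConjugate Real

namespace FB.Eig

variable {κ : ℂ} {C : ℝ} {E : ℕ → ℂ} {γ t β : ℝ} {a b : ℕ → ℂ}

/-- `P f` without the constant coefficient -/
noncomputable def Fo (a b : ℕ → ℂ) (m : ℤ) : ℂ := if m = 0 then 0 else PP (fC a b) m

/-- `P d` without the constant coefficient -/
noncomputable def Do (a b : ℕ → ℂ) (m : ℤ) : ℂ :=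
  if m = 0 then 0 else if (4 : ℤ) ∣ m then ((ext a m - ext b m).re : ℂ) else 0

theorem ext_re_of_dvd (x : ℕ → ℂ) {m : ℤ} (h4 : (4 : ℤ) ∣ m) (hm : m ≠ 0) :
    (ext x m).re = (x m.natAbs).re := by
  unfold ext
  rcases lt_or_gt_of_ne hm with h | h
  · rw [if_neg (by omega), if_pos h]
    have hn : (-m).toNat = m.natAbs := by omega
    have he : Even m.natAbs := by
      obtain ⟨k, rfl⟩ := h4
      exact ⟨2 * k.natAbs, by rw [Int.natAbs_mul]; norm_num; ring⟩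
    rw [hn, he.neg_one_pow, one_mul, Complex.conj_re]
  · rw [if_pos h]
    have hn : m.toNat = m.natAbs := by omega
    rw [hn]

theorem Fo_of_dvd {m : ℤ} (h4 : (4 : ℤ) ∣ m) (hm : m ≠ 0) :
    Fo a b m = (((a m.natAbs).re + (b m.natAbs).re : ℝ) : ℂ) := by
  unfold Fo PP fC
  rw [if_neg hm, if_pos h4, if_neg hm, Complex.add_re, ext_re_of_dvd a h4 hm, ext_re_of_dvd b h4 hm]

theorem Do_of_dvd {m : ℤ} (h4 : (4 : ℤ) ∣ m) (hm : m ≠ 0) :
    Do a b m = (((a m.natAbs).re - (b m.natAbs).re : ℝ) : ℂ) := by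
  unfold Do
  rw [if_neg hm, if_pos h4, Complex.sub_re, ext_re_of_dvd a h4 hm, ext_re_of_dvd b h4 hm]

theorem PP_fC_zero : PP (fC a b) 0 = 1 := by
  simp [PP, fC]

theorem PP_gC_zero : PP (gC β a b) 0 = β := by
  simp [PP, gC]

theorem PP_gC {m : ℤ} (hm : m ≠ 0) : PP (gC β a b) m = (m.natAbs : ℂ) * Do a b m := by
  unfold PP gC Do
  rw [if_neg hm, if_neg hm]
  split_ifs with h4
  · have : ((m.natAbs : ℂ) * (ext a m - ext b m)).re = m.natAbs * (ext a m - ext b m).re := by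
      rw [← Complex.ofReal_natCast, Complex.re_ofReal_mul]
    rw [this]
    push_cast
    ring
  · simp

theorem Fo_eq_zero {m : ℤ} (hm : ¬ (4 : ℤ) ∣ m) : Fo a b m = 0 := by
  unfold Fo PP
  rw [if_neg hm]
  simp

theorem Do_eq_zero {m : ℤ} (hm : ¬ (4 : ℤ) ∣ m) : Do a b m = 0 := by
  unfold Do
  rw [if_neg hm]
  simp

theorem Fo_neg (m : ℤ) : Fo a b (-m) = Fo a b m := by
  by_cases h0 : m = 0
  · simp [h0]
  by_cases h4 : (4 : ℤ) ∣ m
  · rw [Fo_of_dvd h4 h0, Fo_of_dvd ((dvd_neg).mpr h4) (neg_ne_zero.mpr h0), Int.natAbs_neg]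
  · rw [Fo_eq_zero h4, Fo_eq_zero (fun h => h4 ((dvd_neg).mp h))]

theorem Do_neg (m : ℤ) : Do a b (-m) = Do a b m := by
  by_cases h0 : m = 0
  · simp [h0]
  by_cases h4 : (4 : ℤ) ∣ m
  · rw [Do_of_dvd h4 h0, Do_of_dvd ((dvd_neg).mpr h4) (neg_ne_zero.mpr h0), Int.natAbs_neg]
  · rw [Do_eq_zero h4, Do_eq_zero (fun h => h4 ((dvd_neg).mp h))]

theorem Fo_im (m : ℤ) : (Fo a b m).im = 0 := by
  by_cases h0 : m = 0
  · simp [h0, Fo]
  by_cases h4 : (4 : ℤ) ∣ m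
  · rw [Fo_of_dvd h4 h0, Complex.ofReal_im]
  · rw [Fo_eq_zero h4, Complex.zero_im]

theorem Do_im (m : ℤ) : (Do a b m).im = 0 := by
  by_cases h0 : m = 0
  · simp [h0, Do]
  by_cases h4 : (4 : ℤ) ∣ m
  · rw [Do_of_dvd h4 h0, Complex.ofReal_im]
  · rw [Do_eq_zero h4, Complex.zero_im]

/-- From a bound by a function of `|m|` to a bound of the sum over `ℤ`. -/
theorem int_bound {x : ℤ → ℂ} {g : ℕ → ℝ} {B : ℝ} (hg0 : ∀ n, 0 ≤ g n) (hg : Summable g)
    (hB : ∑' n, g n ≤ B) (hx : ∀ m : ℤ, 2 ^ m.natAbs * ‖x m‖ ≤ g m.natAbs) :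
    Summable (fun m : ℤ => 2 ^ m.natAbs * ‖x m‖) ∧
      ∑' m : ℤ, 2 ^ m.natAbs * ‖x m‖ ≤ 2 * B := by
  have h1 : HasSum (fun n : ℕ => g (n : ℤ).natAbs) (∑' n, g n) := by
    simpa using hg.hasSum
  have h2s : Summable (fun n : ℕ => g (n + 1)) := (summable_nat_add_iff 1).mpr hg
  have h2 : HasSum (fun n : ℕ => g (-((n : ℤ) + 1)).natAbs) (∑' n, g (n + 1)) := by
    have e : (fun n : ℕ => g (-((n : ℤ) + 1)).natAbs) = fun n : ℕ => g (n + 1) := by
      funext n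
      congr 1
    rw [e]
    exact h2s.hasSum
  have h3 := HasSum.of_nat_of_neg_add_one (f := fun m : ℤ => g m.natAbs) h1 h2
  have hs : Summable (fun m : ℤ => 2 ^ m.natAbs * ‖x m‖) :=
    Summable.of_nonneg_of_le (fun m => by positivity) hx h3.summable
  refine ⟨hs, ?_⟩
  have h4 := hs.tsum_le_tsum hx h3.summable
  rw [h3.tsum_eq] at h4
  have h5 : ∑' n, g (n + 1) ≤ ∑' n, g n := by
    rw [hg.tsum_eq_zero_add]
    have := hg0 0
    linarith
  linarith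

theorem base_bound (h : IsFix κ C E γ t β a b) :
    Summable (fun n : ℕ => 2 ^ n * ‖a n - leadC κ t n‖ + 2 ^ n * ‖b n - leadC κ t n‖) ∧
    ∑' n : ℕ, (2 ^ n * ‖a n - leadC κ t n‖ + 2 ^ n * ‖b n - leadC κ t n‖) ≤
      2 * C * ‖κ‖ ^ 3 := by
  obtain ⟨h1, h2⟩ := h.anear
  obtain ⟨h3, h4⟩ := h.bnear
  refine ⟨h1.add h3, ?_⟩
  rw [h1.tsum_add h3]
  linarith

theorem lead_zero {m : ℤ} (h4 : (4 : ℤ) ∣ m) : leadC κ t m.natAbs = 0 := by
  unfold leadC
  rw [if_neg]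
  intro h
  omega

/-- For `4 ∣ m`, `m ≠ 0`, `leadC κ t |m| = 0`, so `|F_m| ≤ |a_|m| - lead| + |b_|m| - lead|`; sum over
`m > 0` and `m < 0`. -/
theorem Fo_bound (h : IsFix κ C E γ t β a b) :
    Summable (fun m : ℤ => 2 ^ m.natAbs * ‖Fo a b m‖) ∧
      ∑' m : ℤ, 2 ^ m.natAbs * ‖Fo a b m‖ ≤ 4 * C * ‖κ‖ ^ 3 := by
  obtain ⟨hs, hB⟩ := base_bound h
  have := int_bound (x := Fo a b) (fun n => by positivity) hs hB (fun m => by
    by_cases h0 : m = 0
    · subst h0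
      simp [Fo]
      positivity
    by_cases h4 : (4 : ℤ) ∣ m
    · rw [Fo_of_dvd h4 h0, lead_zero h4, sub_zero, sub_zero, ← mul_add, Complex.norm_real,
        Real.norm_eq_abs]
      gcongr
      refine (abs_add_le _ _).trans (add_le_add (Complex.abs_re_le_norm _)
        (Complex.abs_re_le_norm _))
    · rw [Fo_eq_zero h4, norm_zero, mul_zero]
      positivity)
  refine ⟨this.1, this.2.trans (le_of_eq (by ring))⟩

theorem Do_bound (h : IsFix κ C E γ t β a b) :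
    Summable (fun m : ℤ => 2 ^ m.natAbs * ‖Do a b m‖) ∧
      ∑' m : ℤ, 2 ^ m.natAbs * ‖Do a b m‖ ≤ 4 * C * ‖κ‖ ^ 3 := by
  obtain ⟨hs, hB⟩ := base_bound h
  have := int_bound (x := Do a b) (fun n => by positivity) hs hB (fun m => by
    by_cases h0 : m = 0
    · subst h0
      simp [Do]
      positivity
    by_cases h4 : (4 : ℤ) ∣ m
    · rw [Do_of_dvd h4 h0, lead_zero h4, sub_zero, sub_zero, ← mul_add, Complex.norm_real,
        Real.norm_eq_abs]
      gcongr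
      refine (abs_sub _ _).trans (add_le_add (Complex.abs_re_le_norm _)
        (Complex.abs_re_le_norm _))
    · rw [Do_eq_zero h4, norm_zero, mul_zero]
      positivity)
  refine ⟨this.1, this.2.trans (le_of_eq (by ring))⟩

end FB.Eig
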