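import Mathlib

/-!
# Operators on the sequence space (module EIG, MP_15d50e_gt)
-/

open scoped ENNReal ComplexConjugate

namespace FB.Eig

/-- absolutely summable complex sequences -/
noncomputable abbrev L1 := lp (fun _ : ℕ => ℂ) 1

theorem memL1_iff (f : ℕ → ℂ) : Memℓp f 1 ↔ Summable (fun n => ‖f n‖) := by
  rw [memℓp_gen_iff (by norm_num)]
  simp

theorem L1.summ (x : L1) : Summable (fun n => ‖x n‖) := (memL1_iff _).1 (lp.memℓp x)

theorem L1.norm_eq (x : L1) : ‖x‖ = ∑' n, ‖x n‖ := by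
  rw [lp.norm_eq_tsum_rpow (by norm_num)]
  simp

/-- the element of the sequence space with given coordinates -/
def mkL1 (f : ℕ → ℂ) (hf : Summable (fun n => ‖f n‖)) : L1 := ⟨f, (memL1_iff f).2 hf⟩

@[simp] theorem mkL1_apply (f : ℕ → ℂ) (hf : Summable (fun n => ‖f n‖)) (n : ℕ) :
    mkL1 f hf n = f n := rfl

theorem norm_mkL1 (f : ℕ → ℂ) (hf : Summable (fun n => ‖f n‖)) : ‖mkL1 f hf‖ = ∑' n, ‖f n‖ :=
  L1.norm_eq _

theorem L1.norm_apply_le (x : L1) (n : ℕ) : ‖x n‖ ≤ ‖x‖ := by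
  rw [L1.norm_eq]
  exact (L1.summ x).le_tsum n fun m _ => norm_nonneg _

/-- evaluation at a coordinate -/
noncomputable def ev (n : ℕ) : L1 →L[ℝ] ℂ :=
  LinearMap.mkContinuous
    { toFun := fun x => x n
      map_add' := fun x y => by simp
      map_smul' := fun r x => by simp } 1 (fun x => by
        rw [one_mul]
        exact L1.norm_apply_le x n)

@[simp] theorem ev_apply (n : ℕ) (x : L1) : ev n x = x n := rfl

theorem op_summable {c d : ℕ → L1} {M : ℝ} (h : ∀ k, ‖c k‖ + ‖d k‖ ≤ M) (x : L1) :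
    Summable (fun k => x k • c k + starRingEnd ℂ (x k) • d k) := by
  refine Summable.of_norm_bounded (g := fun k => ‖x k‖ * M) ((L1.summ x).mul_right M) fun k => ?_
  calc ‖x k • c k + starRingEnd ℂ (x k) • d k‖ ≤ ‖x k • c k‖ + ‖starRingEnd ℂ (x k) • d k‖ := norm_add_le _ _
    _ = ‖x k‖ * (‖c k‖ + ‖d k‖) := by
        rw [norm_smul, norm_smul, RCLike.norm_conj]; ring
    _ ≤ ‖x k‖ * M := mul_le_mul_of_nonneg_left (h k) (norm_nonneg _)

theorem op_norm_le {c d : ℕ → L1} {M : ℝ} (h : ∀ k, ‖c k‖ + ‖d k‖ ≤ M) (x : L1) :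
    ‖∑' k, (x k • c k + starRingEnd ℂ (x k) • d k)‖ ≤ M * ‖x‖ := by
  have hb : ∀ k, ‖x k • c k + starRingEnd ℂ (x k) • d k‖ ≤ ‖x k‖ * M := by
    intro k
    calc ‖x k • c k + starRingEnd ℂ (x k) • d k‖ ≤ ‖x k • c k‖ + ‖starRingEnd ℂ (x k) • d k‖ := norm_add_le _ _
      _ = ‖x k‖ * (‖c k‖ + ‖d k‖) := by
          rw [norm_smul, norm_smul, RCLike.norm_conj]; ring
      _ ≤ ‖x k‖ * M := mul_le_mul_of_nonneg_left (h k) (norm_nonneg _)
  have hs : HasSum (fun k => ‖x k‖ * M) (‖x‖ * M) := by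
    rw [L1.norm_eq]
    exact (L1.summ x).hasSum.mul_right M
  have := tsum_of_norm_bounded hs hb
  linarith

/-- the operator with given columns -/
noncomputable def op (c d : ℕ → L1) (M : ℝ) (h : ∀ k, ‖c k‖ + ‖d k‖ ≤ M) : L1 →L[ℝ] L1 :=
  LinearMap.mkContinuous
    { toFun := fun x => ∑' k, (x k • c k + starRingEnd ℂ (x k) • d k)
      map_add' := fun x y => by
        rw [← (op_summable h x).tsum_add (op_summable h y)]
        refine tsum_congr fun k => ?_
        simp only [lp.coeFn_add, Pi.add_apply, map_add, add_smul]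
        abel
      map_smul' := fun r x => by
        rw [RingHom.id_apply, ← (op_summable h x).tsum_const_smul r]
        refine tsum_congr fun k => ?_
        have : starRingEnd ℂ (r • x k) = (r : ℂ) * starRingEnd ℂ (x k) := by simp
        simp only [lp.coeFn_smul, Pi.smul_apply]
        rw [this, smul_add, Complex.real_smul, mul_smul, mul_smul, Complex.coe_smul, Complex.coe_smul]
        rfl }
    M (op_norm_le h)

theorem op_apply (c d : ℕ → L1) (M : ℝ) (h : ∀ k, ‖c k‖ + ‖d k‖ ≤ M) (x : L1) (n : ℕ) :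
    op c d M h x n = ∑' k, (x k * c k n + starRingEnd ℂ (x k) * d k n) := by
  have h1 : op c d M h x = ∑' k, (x k • c k + starRingEnd ℂ (x k) • d k) := rfl
  rw [h1, ← ev_apply n, (ev n).map_tsum (op_summable h x)]
  refine tsum_congr fun k => ?_
  rfl

theorem op_apply_summable (c d : ℕ → L1) (M : ℝ) (h : ∀ k, ‖c k‖ + ‖d k‖ ≤ M) (x : L1) (n : ℕ) :
    Summable fun k => (x k * c k n + starRingEnd ℂ (x k) * d k n) := by
  have := (ev n).summable (op_summable h x)
  refine this.congr fun k => ?_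
  rfl

theorem norm_op_le (c d : ℕ → L1) (M : ℝ) (hM : 0 ≤ M) (h : ∀ k, ‖c k‖ + ‖d k‖ ≤ M) :
    ‖op c d M h‖ ≤ M := LinearMap.mkContinuous_norm_le _ hM _

theorem fn_summable {α : ℕ → ℂ} {M : ℝ} (h : ∀ k, ‖α k‖ ≤ M) (x : L1) :
    Summable (fun k => (α k * x k).re) := by
  refine Summable.of_norm_bounded (g := fun k => M * ‖x k‖) ((L1.summ x).mul_left M) fun k => ?_
  calc ‖(α k * x k).re‖ ≤ ‖α k * x k‖ := Complex.abs_re_le_norm _
    _ = ‖α k‖ * ‖x k‖ := norm_mul _ _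
    _ ≤ M * ‖x k‖ := mul_le_mul_of_nonneg_right (h k) (norm_nonneg _)

theorem fn_norm_le {α : ℕ → ℂ} {M : ℝ} (h : ∀ k, ‖α k‖ ≤ M) (x : L1) :
    ‖∑' k, (α k * x k).re‖ ≤ M * ‖x‖ := by
  have hs : HasSum (fun k => M * ‖x k‖) (M * ‖x‖) := by
    rw [L1.norm_eq]
    exact (L1.summ x).hasSum.mul_left M
  refine tsum_of_norm_bounded hs fun k => ?_
  calc ‖(α k * x k).re‖ ≤ ‖α k * x k‖ := Complex.abs_re_le_norm _
    _ = ‖α k‖ * ‖x k‖ := norm_mul _ _
    _ ≤ M * ‖x k‖ := mul_le_mul_of_nonneg_right (h k) (norm_nonneg _)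

/-- the functional with given coefficients -/
noncomputable def fn (α : ℕ → ℂ) (M : ℝ) (h : ∀ k, ‖α k‖ ≤ M) : L1 →L[ℝ] ℝ :=
  LinearMap.mkContinuous
    { toFun := fun x => ∑' k, (α k * x k).re
      map_add' := fun x y => by
        rw [← (fn_summable h x).tsum_add (fn_summable h y)]
        refine tsum_congr fun k => ?_
        simp only [lp.coeFn_add, Pi.add_apply, mul_add, Complex.add_re]
      map_smul' := fun r x => by
        rw [RingHom.id_apply, smul_eq_mul, ← tsum_mul_left]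
        refine tsum_congr fun k => ?_
        simp only [lp.coeFn_smul, Pi.smul_apply, Complex.real_smul]
        rw [mul_left_comm, Complex.re_ofReal_mul] }
    M (fn_norm_le h)

theorem fn_apply (α : ℕ → ℂ) (M : ℝ) (h : ∀ k, ‖α k‖ ≤ M) (x : L1) :
    fn α M h x = ∑' k, (α k * x k).re := rfl

theorem norm_fn_le (α : ℕ → ℂ) (M : ℝ) (hM : 0 ≤ M) (h : ∀ k, ‖α k‖ ≤ M) :
    ‖fn α M h‖ ≤ M := LinearMap.mkContinuous_norm_le _ hM _

end FB.Eig
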