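import Mathlib
import Pool.Agent.FB.Iface
import Pool.Agent.FB.Eig.Op
import Pool.Agent.FB.Eig.FG
import Pool.Agent.FB.Eig.Conv

/-!
# The operators of the second problem, by their columns (module EIG, MP_15d50e_gt)
-/

open Complex Set
open scoped ComplexConjugate Real

namespace FB.Eig

/-! ## weights -/

theorem nat_lt_two_pow_real (k : ℕ) : (k : ℝ) + 1 ≤ 2 ^ k := by
  have : k + 1 ≤ 2 ^ k := Nat.lt_two_pow_self
  exact_mod_cast this

theorem wV {n k : ℕ} (hn : 0 < n) (_hk : 0 < k) :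
    (2 : ℝ) ^ n / 2 ^ k * (k / n) ≤ 2 ^ ((n : ℤ) - k).natAbs := by
  have hn' : (0 : ℝ) < n := by exact_mod_cast hn
  rcases le_total n k with h | h
  · obtain ⟨j, rfl⟩ := Nat.exists_eq_add_of_le h
    have e1 : ((n : ℤ) - (n + j : ℕ)).natAbs = j := by omega
    rw [e1, pow_add]
    have e2 : (2 : ℝ) ^ n / (2 ^ n * 2 ^ j) = 1 / 2 ^ j := by field_simp
    rw [e2]
    have e3 : ((n + j : ℕ) : ℝ) / n ≤ 2 ^ j := by
      rw [div_le_iff₀ hn']
      push_cast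
      have h1 := nat_lt_two_pow_real j
      have h2 : (1 : ℝ) ≤ n := by exact_mod_cast hn
      have h3 : (0 : ℝ) ≤ j := Nat.cast_nonneg j
      nlinarith
    have e4 : (1 : ℝ) ≤ 2 ^ j := one_le_pow₀ (by norm_num)
    calc 1 / 2 ^ j * (((n + j : ℕ) : ℝ) / n) ≤ 1 / 2 ^ j * 2 ^ j :=
          mul_le_mul_of_nonneg_left e3 (by positivity)
      _ = 1 := by field_simp
      _ ≤ 2 ^ j := e4
  · obtain ⟨j, rfl⟩ := Nat.exists_eq_add_of_le h
    have e1 : (((k + j : ℕ) : ℤ) - k).natAbs = j := by omega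
    rw [e1, pow_add]
    have e2 : (2 : ℝ) ^ k * 2 ^ j / 2 ^ k = 2 ^ j := by field_simp
    rw [e2]
    have e3 : (k : ℝ) / ((k + j : ℕ) : ℝ) ≤ 1 := by
      rw [div_le_one hn']
      exact_mod_cast Nat.le_add_right k j
    calc (2 : ℝ) ^ j * (k / ((k + j : ℕ) : ℝ)) ≤ 2 ^ j * 1 :=
          mul_le_mul_of_nonneg_left e3 (by positivity)
      _ = 2 ^ j := mul_one _

theorem wV' {n k : ℕ} (hn : 0 < n) (_hk : 0 < k) :
    (2 : ℝ) ^ n / 2 ^ k * (k / n) ≤ 2 ^ ((n : ℤ) + k).natAbs := by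
  have hn' : (0 : ℝ) < n := by exact_mod_cast hn
  have e1 : ((n : ℤ) + k).natAbs = n + k := by omega
  rw [e1, pow_add]
  have e3 : (k : ℝ) / n ≤ 2 ^ k := by
    rw [div_le_iff₀ hn']
    have h1 := nat_lt_two_pow_real k
    have h2 : (1 : ℝ) ≤ n := by exact_mod_cast hn
    have h3 : (0 : ℝ) ≤ 2 ^ k := by positivity
    nlinarith
  have e4 : (1 : ℝ) ≤ 2 ^ k := one_le_pow₀ (by norm_num)
  calc (2 : ℝ) ^ n / 2 ^ k * (k / n) ≤ 2 ^ n / 2 ^ k * 2 ^ k :=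
        mul_le_mul_of_nonneg_left e3 (by positivity)
    _ = 2 ^ n * 1 := by field_simp
    _ ≤ 2 ^ n * 2 ^ k := mul_le_mul_of_nonneg_left e4 (by positivity)

theorem wU {n k : ℕ} (hn : 0 < n) (hk : 0 < k) :
    (2 : ℝ) ^ n / 2 ^ k / n * ((n : ℤ) - k).natAbs ≤ 2 ^ ((n : ℤ) - k).natAbs := by
  have hn' : (0 : ℝ) < n := by exact_mod_cast hn
  have h2 : (1 : ℝ) ≤ n := by exact_mod_cast hn
  rcases le_total n k with h | h
  · obtain ⟨j, rfl⟩ := Nat.exists_eq_add_of_le h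
    have e1 : ((n : ℤ) - (n + j : ℕ)).natAbs = j := by omega
    rw [e1, pow_add]
    have e2 : (2 : ℝ) ^ n / (2 ^ n * 2 ^ j) / n * j = 1 / 2 ^ j * (j / n) := by field_simp
    rw [e2]
    have e3 : (j : ℝ) / n ≤ 2 ^ j := by
      rw [div_le_iff₀ hn']
      have h1 := nat_lt_two_pow_real j
      have h3 : (0 : ℝ) ≤ 2 ^ j := by positivity
      nlinarith
    have e4 : (1 : ℝ) ≤ 2 ^ j := one_le_pow₀ (by norm_num)
    calc 1 / 2 ^ j * ((j : ℝ) / n) ≤ 1 / 2 ^ j * 2 ^ j :=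
          mul_le_mul_of_nonneg_left e3 (by positivity)
      _ = 1 := by field_simp
      _ ≤ 2 ^ j := e4
  · obtain ⟨j, rfl⟩ := Nat.exists_eq_add_of_le h
    have e1 : (((k + j : ℕ) : ℤ) - k).natAbs = j := by omega
    rw [e1, pow_add]
    have e2 : (2 : ℝ) ^ k * 2 ^ j / 2 ^ k / ((k + j : ℕ) : ℝ) * j = 2 ^ j * (j / ((k + j : ℕ) : ℝ)) := by
      field_simp
    rw [e2]
    have e3 : (j : ℝ) / ((k + j : ℕ) : ℝ) ≤ 1 := by
      rw [div_le_one hn']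
      exact_mod_cast Nat.le_add_left j k
    calc (2 : ℝ) ^ j * (j / ((k + j : ℕ) : ℝ)) ≤ 2 ^ j * 1 :=
          mul_le_mul_of_nonneg_left e3 (by positivity)
      _ = 2 ^ j := mul_one _

theorem wU' {n k : ℕ} (hn : 0 < n) (_hk : 0 < k) :
    (2 : ℝ) ^ n / 2 ^ k / n * ((n : ℤ) + k).natAbs ≤ 2 ^ ((n : ℤ) + k).natAbs := by
  have hn' : (0 : ℝ) < n := by exact_mod_cast hn
  have h2 : (1 : ℝ) ≤ n := by exact_mod_cast hn
  have e1 : ((n : ℤ) + k).natAbs = n + k := by omega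
  rw [e1, pow_add]
  have e2 : (2 : ℝ) ^ n / 2 ^ k / n * ((n + k : ℕ) : ℝ) = 2 ^ n / 2 ^ k * (((n + k : ℕ) : ℝ) / n) := by
    field_simp
  rw [e2]
  have e3 : ((n + k : ℕ) : ℝ) / n ≤ 2 ^ k := by
    rw [div_le_iff₀ hn']
    push_cast
    have h1 := nat_lt_two_pow_real k
    have h3 : (0 : ℝ) ≤ k := Nat.cast_nonneg k
    nlinarith
  have e4 : (1 : ℝ) ≤ 2 ^ k := one_le_pow₀ (by norm_num)
  calc (2 : ℝ) ^ n / 2 ^ k * (((n + k : ℕ) : ℝ) / n) ≤ 2 ^ n / 2 ^ k * 2 ^ k :=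
        mul_le_mul_of_nonneg_left e3 (by positivity)
    _ = 2 ^ n * 1 := by field_simp
    _ ≤ 2 ^ n * 2 ^ k := mul_le_mul_of_nonneg_left e4 (by positivity)

/-! ## columns -/

theorem col_summable {H : ℤ → ℝ} (hH : Summable H) {i : ℕ → ℤ} (hi : Function.Injective i)
    {A : ℕ → ℂ} (hA : ∀ n, ‖A n‖ ≤ H (i n)) : Summable (fun n => ‖A n‖) :=
  Summable.of_nonneg_of_le (fun _ => norm_nonneg _) hA (hH.comp_injective hi)

theorem col_norm {H : ℤ → ℝ} (hH : Summable H) (h0 : ∀ m, 0 ≤ H m) {φ : ℝ} (hφ : ∑' m, H m ≤ φ)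
    {i : ℕ → ℤ} (hi : Function.Injective i) {A : ℕ → ℂ} (hA : ∀ n, ‖A n‖ ≤ H (i n)) :
    ‖mkL1 A (col_summable hH hi hA)‖ ≤ φ := by
  rw [norm_mkL1]
  calc ∑' n, ‖A n‖ ≤ ∑' n, H (i n) :=
        (col_summable hH hi hA).tsum_le_tsum hA (hH.comp_injective hi)
    _ ≤ ∑' m, H m := tsum_comp_le_tsum_of_inj hH h0 hi
    _ ≤ φ := hφ

theorem inj_sub (k : ℕ) : Function.Injective (fun n : ℕ => (n : ℤ) - k) := fun m n h => by
  have h' : (m : ℤ) - k = n - k := h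
  omega

theorem inj_add (k : ℕ) : Function.Injective (fun n : ℕ => (n : ℤ) + k) := fun m n h => by
  have h' : (m : ℤ) + k = n + k := h
  omega

/-- entries of the operator `V`, linear part -/
noncomputable def cV (P : ℤ → ℂ) (k n : ℕ) : ℂ :=
  if n = 0 ∨ k = 0 then 0 else (((2 : ℝ) ^ n / 2 ^ k * (k / n) : ℝ) : ℂ) * P ((n : ℤ) - k)

/-- entries of the operator `V`, conjugate part -/
noncomputable def dV (P : ℤ → ℂ) (k n : ℕ) : ℂ :=
  if n = 0 ∨ k = 0 then 0 else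
    (((2 : ℝ) ^ n / 2 ^ k * (k / n) : ℝ) : ℂ) * ((-1) ^ k * P ((n : ℤ) + k))

/-- entries of the operator `U`, linear part -/
noncomputable def cU (P : ℤ → ℂ) (k n : ℕ) : ℂ :=
  if n = 0 ∨ k = 0 then 0 else (((2 : ℝ) ^ n / 2 ^ k / n : ℝ) : ℂ) * P ((n : ℤ) - k)

/-- entries of the operator `U`, conjugate part -/
noncomputable def dU (P : ℤ → ℂ) (k n : ℕ) : ℂ :=
  if n = 0 ∨ k = 0 then 0 else
    (((2 : ℝ) ^ n / 2 ^ k / n : ℝ) : ℂ) * ((-1) ^ k * P ((n : ℤ) + k))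

theorem norm_negOne_pow_mul (k : ℕ) (z : ℂ) : ‖(-1) ^ k * z‖ = ‖z‖ := by
  rw [norm_mul, norm_pow, norm_neg, norm_one, one_pow, one_mul]

theorem norm_cV_le (P : ℤ → ℂ) (k n : ℕ) :
    ‖cV P k n‖ ≤ 2 ^ ((n : ℤ) - k).natAbs * ‖P ((n : ℤ) - k)‖ := by
  unfold cV
  split_ifs with h
  · rw [norm_zero]; positivity
  · push Not at h
    rw [norm_mul, Complex.norm_real, Real.norm_of_nonneg (by positivity)]
    exact mul_le_mul_of_nonneg_right (wV (Nat.pos_of_ne_zero h.1) (Nat.pos_of_ne_zero h.2))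
      (norm_nonneg _)

theorem norm_dV_le (P : ℤ → ℂ) (k n : ℕ) :
    ‖dV P k n‖ ≤ 2 ^ ((n : ℤ) + k).natAbs * ‖P ((n : ℤ) + k)‖ := by
  unfold dV
  split_ifs with h
  · rw [norm_zero]; positivity
  · push Not at h
    rw [norm_mul, norm_negOne_pow_mul, Complex.norm_real, Real.norm_of_nonneg (by positivity)]
    exact mul_le_mul_of_nonneg_right (wV' (Nat.pos_of_ne_zero h.1) (Nat.pos_of_ne_zero h.2))
      (norm_nonneg _)

theorem norm_cU_le {P Q : ℤ → ℂ} (h0 : ‖P 0‖ ≤ ‖Q 0‖)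
    (hP : ∀ m : ℤ, m ≠ 0 → ‖P m‖ ≤ m.natAbs * ‖Q m‖) (k n : ℕ) :
    ‖cU P k n‖ ≤ 2 ^ ((n : ℤ) - k).natAbs * ‖Q ((n : ℤ) - k)‖ := by
  unfold cU
  split_ifs with h
  · rw [norm_zero]; positivity
  · push Not at h
    have hn := Nat.pos_of_ne_zero h.1
    have hk := Nat.pos_of_ne_zero h.2
    have hn' : (1 : ℝ) ≤ n := by exact_mod_cast hn
    rw [norm_mul, Complex.norm_real, Real.norm_of_nonneg (by positivity)]
    by_cases hnk : (n : ℤ) - k = 0
    · have : n = k := by omega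
      subst this
      rw [hnk]
      have e1 : (2 : ℝ) ^ n / 2 ^ n / n ≤ 1 := by
        rw [div_self (by positivity), div_le_one (by linarith)]
        exact hn'
      simp only [Int.natAbs_zero, pow_zero, one_mul]
      calc (2 : ℝ) ^ n / 2 ^ n / n * ‖P 0‖ ≤ 1 * ‖P 0‖ :=
            mul_le_mul_of_nonneg_right e1 (norm_nonneg _)
        _ ≤ ‖Q 0‖ := by rw [one_mul]; exact h0
    · calc (2 : ℝ) ^ n / 2 ^ k / n * ‖P ((n : ℤ) - k)‖ ≤
          2 ^ n / 2 ^ k / n * (((n : ℤ) - k).natAbs * ‖Q ((n : ℤ) - k)‖) :=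
            mul_le_mul_of_nonneg_left (hP _ hnk) (by positivity)
        _ = 2 ^ n / 2 ^ k / n * ((n : ℤ) - k).natAbs * ‖Q ((n : ℤ) - k)‖ := by ring
        _ ≤ _ := mul_le_mul_of_nonneg_right (wU hn hk) (norm_nonneg _)

theorem norm_dU_le {P Q : ℤ → ℂ} (hP : ∀ m : ℤ, m ≠ 0 → ‖P m‖ ≤ m.natAbs * ‖Q m‖) (k n : ℕ) :
    ‖dU P k n‖ ≤ 2 ^ ((n : ℤ) + k).natAbs * ‖Q ((n : ℤ) + k)‖ := by
  unfold dU
  split_ifs with h
  · rw [norm_zero]; positivity
  · push Not at h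
    have hn := Nat.pos_of_ne_zero h.1
    have hk := Nat.pos_of_ne_zero h.2
    rw [norm_mul, norm_negOne_pow_mul, Complex.norm_real, Real.norm_of_nonneg (by positivity)]
    have hnk : (n : ℤ) + k ≠ 0 := by omega
    calc (2 : ℝ) ^ n / 2 ^ k / n * ‖P ((n : ℤ) + k)‖ ≤
        2 ^ n / 2 ^ k / n * (((n : ℤ) + k).natAbs * ‖Q ((n : ℤ) + k)‖) :=
          mul_le_mul_of_nonneg_left (hP _ hnk) (by positivity)
      _ = 2 ^ n / 2 ^ k / n * ((n : ℤ) + k).natAbs * ‖Q ((n : ℤ) + k)‖ := by ring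
      _ ≤ _ := mul_le_mul_of_nonneg_right (wU' hn hk) (norm_nonneg _)

/-! ## the regular part -/

/-- entries of the operator `R` (conjugate part) -/
noncomputable def dR (E : ℕ → ℂ) (t : ℝ) (k n : ℕ) : ℂ :=
  if n = 0 ∨ k = 0 then 0 else
    (((2 : ℝ) ^ n / 2 ^ k * t ^ n * t ^ k * (Nat.choose (k - 1 + n) n : ℝ) : ℝ) : ℂ) * E (k + n)

theorem norm_dR_le {E : ℕ → ℂ} {C t : ℝ} (hC : 0 ≤ C) (hE : ∀ j : ℕ, 2 ≤ j → ‖E j‖ ≤ C * (5 / 4) ^ j)
    (ht0 : 0 ≤ t) (ht1 : t ≤ 1 / 10) (k n : ℕ) : ‖dR E t k n‖ ≤ C * (5 / 4 * t) * (5 * t) ^ n := by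
  unfold dR
  split_ifs with h
  · rw [norm_zero]; positivity
  · push Not at h
    have hn := Nat.pos_of_ne_zero h.1
    have hk := Nat.pos_of_ne_zero h.2
    rw [norm_mul, Complex.norm_real, Real.norm_of_nonneg (by positivity)]
    have e1 : ((Nat.choose (k - 1 + n) n : ℕ) : ℝ) ≤ 2 ^ (k + n) := by
      calc ((Nat.choose (k - 1 + n) n : ℕ) : ℝ) ≤ 2 ^ (k - 1 + n) := by
            exact_mod_cast Nat.choose_le_two_pow _ _
        _ ≤ 2 ^ (k + n) := pow_le_pow_right₀ (by norm_num) (by omega)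
    have e2 := hE (k + n) (by omega)
    calc (2 : ℝ) ^ n / 2 ^ k * t ^ n * t ^ k * (Nat.choose (k - 1 + n) n : ℝ) * ‖E (k + n)‖ ≤
        (2 : ℝ) ^ n / 2 ^ k * t ^ n * t ^ k * 2 ^ (k + n) * (C * (5 / 4) ^ (k + n)) := by
          apply mul_le_mul _ e2 (norm_nonneg _) (by positivity)
          exact mul_le_mul_of_nonneg_left e1 (by positivity)
      _ = C * (5 / 4 * t) ^ k * (5 * t) ^ n := by
          rw [pow_add, pow_add, mul_pow, mul_pow]
          have : (5 : ℝ) ^ n = 2 ^ n * 2 ^ n * (5 / 4) ^ n := by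
            rw [← mul_pow, ← mul_pow]; norm_num
          rw [this]
          field_simp
      _ ≤ C * (5 / 4 * t) * (5 * t) ^ n := by
          apply mul_le_mul_of_nonneg_right _ (by positivity)
          apply mul_le_mul_of_nonneg_left _ hC
          calc (5 / 4 * t) ^ k ≤ (5 / 4 * t) ^ 1 :=
                pow_le_pow_of_le_one (by positivity) (by linarith) hk
            _ = 5 / 4 * t := pow_one _

/-- entries of the vector `A0` -/
noncomputable def vA (E : ℕ → ℂ) (t : ℝ) (n : ℕ) : ℂ :=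
  if n = 0 then 0 else -((((2 * t) ^ n / (2 * n) : ℝ) : ℂ) * E n)

theorem norm_vA_le {E : ℕ → ℂ} {C t : ℝ} (hC : 0 ≤ C) (hE : ∀ j : ℕ, 2 ≤ j → ‖E j‖ ≤ C * (5 / 4) ^ j)
    (ht0 : 0 ≤ t) (n : ℕ) :
    ‖vA E t n‖ ≤ (if n = 1 then t * ‖E 1‖ else 0) + C * (5 / 2 * t) ^ n := by
  unfold vA
  by_cases h0 : n = 0
  · rw [if_pos h0, norm_zero]
    have : (0 : ℝ) ≤ (if n = 1 then t * ‖E 1‖ else 0) := by split_ifs <;> positivity
    positivity
  · rw [if_neg h0, norm_neg, norm_mul, Complex.norm_real, Real.norm_of_nonneg (by positivity)]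
    by_cases h1 : n = 1
    · subst h1
      rw [if_pos rfl]
      have : (2 * t) ^ 1 / (2 * ((1 : ℕ) : ℝ)) = t := by norm_num
      rw [this]
      have : 0 ≤ C * (5 / 2 * t) ^ 1 := by positivity
      linarith
    · rw [if_neg h1, zero_add]
      have hn : (1 : ℝ) ≤ n := by exact_mod_cast Nat.pos_of_ne_zero h0
      have e2 := hE n (by omega)
      have e3 : (2 * t) ^ n / (2 * (n : ℝ)) ≤ (2 * t) ^ n := by
        apply div_le_self (by positivity)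
        linarith
      calc (2 * t) ^ n / (2 * (n : ℝ)) * ‖E n‖ ≤ (2 * t) ^ n * (C * (5 / 4) ^ n) :=
            mul_le_mul e3 e2 (norm_nonneg _) (by positivity)
        _ = C * (5 / 2 * t) ^ n := by
            have : (5 / 2 * t) ^ n = (2 * t) ^ n * (5 / 4) ^ n := by
              rw [← mul_pow]; congr 1; ring
            rw [this]; ring

/-- coefficients of the functional `l` -/
noncomputable def vl (E : ℕ → ℂ) (t p0 : ℝ) (k : ℕ) : ℂ :=
  if k = 0 then 0 else -(((2 * p0 * t ^ k / 2 ^ k : ℝ) : ℂ) * conj (E k))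

theorem norm_vl_le {E : ℕ → ℂ} {C t p0 : ℝ} (hC : 0 ≤ C)
    (hE : ∀ j : ℕ, 2 ≤ j → ‖E j‖ ≤ C * (5 / 4) ^ j) (ht0 : 0 ≤ t) (ht1 : t ≤ 1 / 10) (k : ℕ) :
    ‖vl E t p0 k‖ ≤ 2 * |p0| * (t * ‖E 1‖ + C) := by
  unfold vl
  by_cases h0 : k = 0
  · rw [if_pos h0, norm_zero]; positivity
  · rw [if_neg h0, norm_neg, norm_mul, Complex.norm_real, RCLike.norm_conj, Real.norm_eq_abs,
      abs_div, abs_mul, abs_mul, abs_of_nonneg (by positivity : 0 ≤ t ^ k),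
      abs_of_nonneg (by positivity : (0 : ℝ) ≤ 2 ^ k), abs_of_pos (by norm_num : (0 : ℝ) < 2)]
    by_cases h1 : k = 1
    · subst h1
      rw [pow_one, pow_one]
      have : 0 ≤ |p0| * (t * ‖E 1‖) := by positivity
      have : 0 ≤ |p0| * C := by positivity
      have e : 2 * |p0| * t / 2 * ‖E 1‖ = |p0| * (t * ‖E 1‖) := by ring
      rw [e]
      linarith
    · have e2 := hE k (by omega)
      have e4 : 2 * |p0| * t ^ k / 2 ^ k * ‖E k‖ ≤ 2 * |p0| * C := by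
        calc 2 * |p0| * t ^ k / 2 ^ k * ‖E k‖ ≤ 2 * |p0| * t ^ k / 2 ^ k * (C * (5 / 4) ^ k) :=
              mul_le_mul_of_nonneg_left e2 (by positivity)
          _ = 2 * |p0| * C * (5 / 8 * t) ^ k := by
              have : (5 / 8 * t) ^ k = t ^ k / 2 ^ k * (5 / 4) ^ k := by
                rw [← div_pow, ← mul_pow]; congr 1; ring
              rw [this]; ring
          _ ≤ 2 * |p0| * C * 1 := by
              apply mul_le_mul_of_nonneg_left _ (by positivity)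
              exact pow_le_one₀ (by positivity) (by linarith)
          _ = _ := mul_one _
      have : 0 ≤ 2 * |p0| * (t * ‖E 1‖) := by positivity
      linarith

/-- coefficients of the functionals `fF`, `fG` -/
noncomputable def vf (P : ℤ → ℂ) (k : ℕ) : ℂ :=
  if k = 0 then 0 else ((2 * k / 2 ^ k : ℝ) : ℂ) * P k

theorem norm_vf_le {P : ℤ → ℂ} {φ : ℝ} (hP : Summable fun m : ℤ => 2 ^ m.natAbs * ‖P m‖)
    (hφ : ∑' m : ℤ, 2 ^ m.natAbs * ‖P m‖ ≤ φ) (k : ℕ) : ‖vf P k‖ ≤ φ := by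
  unfold vf
  have h1 := norm_le_of_weight hP hφ (k : ℤ)
  rw [Int.natAbs_natCast] at h1
  by_cases h0 : k = 0
  · rw [if_pos h0, norm_zero]
    exact le_trans (by positivity) h1
  · rw [if_neg h0, norm_mul, Complex.norm_real, Real.norm_of_nonneg (by positivity)]
    refine le_trans (mul_le_mul_of_nonneg_right ?_ (norm_nonneg _)) h1
    rw [div_le_iff₀ (by positivity)]
    have h2 := nat_lt_two_pow_real k
    have h3 : (0 : ℝ) ≤ k := Nat.cast_nonneg k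
    have h4 : (2 : ℝ) ≤ 2 ^ k := by
      calc (2 : ℝ) = 2 ^ 1 := by norm_num
        _ ≤ 2 ^ k := pow_le_pow_right₀ (by norm_num) (Nat.pos_of_ne_zero h0)
    nlinarith

end FB.Eig
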