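import Mathlib
import Pool.Agent.FB.Iface
import Pool.Agent.FB.Eig.Abs
import Pool.Agent.FB.Eig.Cols

/-!
# The data of the second problem and their bounds (module EIG, MP_15d50e_gt)
-/

open Complex Set
open scoped ComplexConjugate Real

namespace FB.Eig

/-- the multiplier `P d` with the constant coefficient `β` -/
noncomputable def De (β : ℝ) (a b : ℕ → ℂ) (m : ℤ) : ℂ := if m = 0 then (β : ℂ) else Do a b m

/-- All hypotheses used for the second problem. -/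
structure Par (C K₀ k : ℝ) (E : ℕ → ℂ) (γ t β : ℝ) (a b : ℕ → ℂ) : Prop where
  hC : 0 ≤ C
  hK : 1 ≤ K₀
  hk : 0 < k
  hk1 : k ≤ 1 / 2
  t0 : 0 < t
  t1 : t ≤ k / 8
  e1 : t * ‖E 1‖ ≤ K₀
  ej : ∀ j : ℕ, 2 ≤ j → ‖E j‖ ≤ C * (5 / 4) ^ j
  ne : γ + Real.log t ≠ 0
  p0 : |1 / (γ + Real.log t)| ≤ K₀ * k ^ 2
  β1 : k ^ 2 ≤ K₀ * |β|
  β2 : |β| ≤ (1 + C) * k ^ 2
  fs : Summable fun m : ℤ => 2 ^ m.natAbs * ‖Fo a b m‖
  fb : ∑' m : ℤ, 2 ^ m.natAbs * ‖Fo a b m‖ ≤ 4 * C * k ^ 3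
  ds : Summable fun m : ℤ => 2 ^ m.natAbs * ‖Do a b m‖
  db : ∑' m : ℤ, 2 ^ m.natAbs * ‖Do a b m‖ ≤ 4 * C * k ^ 3

/-- entries of the vectors `F0`, `G0` -/
noncomputable def vG (P : ℤ → ℂ) (n : ℕ) : ℂ := if n = 0 then 0 else (((2 : ℝ) ^ n / n : ℝ) : ℂ) * P n

variable {C K₀ k : ℝ} {E : ℕ → ℂ} {γ t β : ℝ} {a b : ℕ → ℂ}

theorem De_norm (m : ℤ) : (2 : ℝ) ^ m.natAbs * ‖De β a b m‖ =
    2 ^ m.natAbs * ‖Do a b m‖ + (if m = 0 then |β| else 0) := by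
  unfold De
  by_cases h : m = 0
  · subst h
    have : Do a b 0 = 0 := by simp [Do]
    simp [this]
  · rw [if_neg h, if_neg h, add_zero]

theorem De_summable (h : Summable fun m : ℤ => 2 ^ m.natAbs * ‖Do a b m‖) :
    Summable fun m : ℤ => 2 ^ m.natAbs * ‖De β a b m‖ := by
  have h1 : HasSum (fun m : ℤ => if m = 0 then |β| else 0) |β| := hasSum_ite_eq 0 |β|
  exact (h.add h1.summable).congr fun m => (De_norm m).symm

theorem De_tsum (h : Summable fun m : ℤ => 2 ^ m.natAbs * ‖Do a b m‖) :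
    ∑' m : ℤ, 2 ^ m.natAbs * ‖De β a b m‖ = ∑' m : ℤ, 2 ^ m.natAbs * ‖Do a b m‖ + |β| := by
  have h1 : HasSum (fun m : ℤ => if m = 0 then |β| else 0) |β| := hasSum_ite_eq 0 |β|
  rw [← h1.tsum_eq, ← h.tsum_add h1.summable]
  exact tsum_congr fun m => De_norm m

theorem PP_gC_le (m : ℤ) (hm : m ≠ 0) : ‖PP (gC β a b) m‖ ≤ m.natAbs * ‖De β a b m‖ := by
  rw [PP_gC hm, De, if_neg hm, norm_mul, Complex.norm_natCast]

theorem PP_gC_le0 : ‖PP (gC β a b) 0‖ ≤ ‖De β a b 0‖ := by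
  rw [PP_gC_zero, De, if_pos rfl]

theorem nn (P : ℤ → ℂ) (m : ℤ) : 0 ≤ (2 : ℝ) ^ m.natAbs * ‖P m‖ := by positivity

theorem norm_vG_F (n : ℕ) : ‖vG (Fo a b) n‖ ≤ 2 ^ ((n : ℤ)).natAbs * ‖Fo a b n‖ := by
  unfold vG
  split_ifs with h
  · rw [norm_zero]; positivity
  · have hn : (1 : ℝ) ≤ n := by exact_mod_cast Nat.pos_of_ne_zero h
    rw [norm_mul, Complex.norm_real, Real.norm_of_nonneg (by positivity), Int.natAbs_natCast]
    apply mul_le_mul_of_nonneg_right _ (norm_nonneg _)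
    exact div_le_self (by positivity) hn

theorem norm_vG_G (n : ℕ) :
    ‖vG (PP (gC β a b)) n‖ ≤ 2 ^ ((n : ℤ)).natAbs * ‖Do a b n‖ := by
  unfold vG
  split_ifs with h
  · rw [norm_zero]; positivity
  · have hn : (1 : ℝ) ≤ n := by exact_mod_cast Nat.pos_of_ne_zero h
    have hn' : (n : ℤ) ≠ 0 := by exact_mod_cast h
    rw [norm_mul, Complex.norm_real, Real.norm_of_nonneg (by positivity), Int.natAbs_natCast,
      PP_gC hn', norm_mul, Int.natAbs_natCast, Complex.norm_natCast]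
    have : (2 : ℝ) ^ n / n * (n * ‖Do a b n‖) = 2 ^ n * ‖Do a b n‖ := by
      field_simp
    rw [this]

theorem inj_cast : Function.Injective (fun n : ℕ => (n : ℤ)) := fun m n h => by
  have h' : (m : ℤ) = n := h
  omega

theorem geo_le {C r : ℝ} (_hC : 0 ≤ C) (hr0 : 0 ≤ r) (hr : r ≤ 1 / 2) :
    HasSum (fun n : ℕ => C * r ^ n) (C * (1 - r)⁻¹) ∧ C * (1 - r)⁻¹ ≤ 2 * C := by
  refine ⟨(hasSum_geometric_of_lt_one hr0 (by linarith)).mul_left C, ?_⟩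
  have h1 : (1 - r)⁻¹ ≤ 2 := by
    rw [inv_le_comm₀ (by linarith) (by norm_num)]
    linarith
  nlinarith

theorem Par.t10 (h : Par C K₀ k E γ t β a b) : t ≤ 1 / 16 := by linarith [h.t1, h.hk1]

theorem Par.dR_summable (h : Par C K₀ k E γ t β a b) (j : ℕ) : Summable fun n => ‖dR E t j n‖ :=
  Summable.of_nonneg_of_le (fun _ => norm_nonneg _)
    (fun n => norm_dR_le h.hC h.ej h.t0.le (by linarith [h.t10]) j n)
    (geo_le (C := C * (5 / 4 * t)) (r := 5 * t) (by have := h.hC; have := h.t0; positivity)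
      (by linarith [h.t0]) (by linarith [h.t10])).1.summable

theorem Par.dR_norm (h : Par C K₀ k E γ t β a b) (j : ℕ) :
    ‖(0 : L1)‖ + ‖mkL1 (dR E t j) (h.dR_summable j)‖ ≤ C * k := by
  have hg := geo_le (C := C * (5 / 4 * t)) (r := 5 * t) (by have := h.hC; have := h.t0; positivity)
      (by linarith [h.t0]) (by linarith [h.t10])
  rw [norm_zero, zero_add, norm_mkL1]
  calc ∑' n, ‖dR E t j n‖ ≤ ∑' n, C * (5 / 4 * t) * (5 * t) ^ n :=
        (h.dR_summable j).tsum_le_tsum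
          (fun n => norm_dR_le h.hC h.ej h.t0.le (by linarith [h.t10]) j n) hg.1.summable
    _ ≤ 2 * (C * (5 / 4 * t)) := by rw [hg.1.tsum_eq]; exact hg.2
    _ ≤ C * k := by
        have h1 := h.t1
        have h2 := h.hC
        have h3 := h.hk
        nlinarith

theorem Par.vA_hasSum (h : Par C K₀ k E γ t β a b) :
    Summable (fun n : ℕ => (if n = 1 then t * ‖E 1‖ else 0) + C * (5 / 2 * t) ^ n) ∧
    ∑' n : ℕ, ((if n = 1 then t * ‖E 1‖ else 0) + C * (5 / 2 * t) ^ n) ≤ K₀ + 2 * C := by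
  have hg := geo_le (C := C) (r := 5 / 2 * t) h.hC (by linarith [h.t0]) (by linarith [h.t10])
  have h1 : HasSum (fun n : ℕ => if n = 1 then t * ‖E 1‖ else 0) (t * ‖E 1‖) := hasSum_ite_eq 1 _
  have h2 := h1.add hg.1
  refine ⟨h2.summable, ?_⟩
  rw [h2.tsum_eq]
  linarith [h.e1, hg.2]

theorem Par.vA_summable (h : Par C K₀ k E γ t β a b) : Summable fun n => ‖vA E t n‖ :=
  Summable.of_nonneg_of_le (fun _ => norm_nonneg _) (fun n => norm_vA_le h.hC h.ej h.t0.le n)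
    h.vA_hasSum.1

theorem Par.vA_norm (h : Par C K₀ k E γ t β a b) : ‖mkL1 (vA E t) h.vA_summable‖ ≤ K₀ + 2 * C := by
  rw [norm_mkL1]
  exact (h.vA_summable.tsum_le_tsum (fun n => norm_vA_le h.hC h.ej h.t0.le n) h.vA_hasSum.1).trans
    h.vA_hasSum.2

/-- the columns of `V` -/
noncomputable def Par.colcV (h : Par C K₀ k E γ t β a b) (j : ℕ) : L1 :=
  mkL1 (cV (Fo a b) j) (col_summable h.fs (inj_sub j) (norm_cV_le _ j))

noncomputable def Par.coldV (h : Par C K₀ k E γ t β a b) (j : ℕ) : L1 :=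
  mkL1 (dV (Fo a b) j) (col_summable h.fs (inj_add j) (norm_dV_le _ j))

theorem Par.colV_norm (h : Par C K₀ k E γ t β a b) (j : ℕ) :
    ‖h.colcV j‖ + ‖h.coldV j‖ ≤ 8 * C * k ^ 3 := by
  have h1 : ‖h.colcV j‖ ≤ 4 * C * k ^ 3 :=
    col_norm h.fs (nn _) h.fb (inj_sub j) (norm_cV_le _ j)
  have h2 : ‖h.coldV j‖ ≤ 4 * C * k ^ 3 :=
    col_norm h.fs (nn _) h.fb (inj_add j) (norm_dV_le _ j)
  linarith

/-- the columns of `U` -/
noncomputable def Par.colcU (h : Par C K₀ k E γ t β a b) (j : ℕ) : L1 :=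
  mkL1 (cU (PP (gC β a b)) j) (col_summable (De_summable (β := β) h.ds) (inj_sub j)
    (norm_cU_le PP_gC_le0 PP_gC_le j))

noncomputable def Par.coldU (h : Par C K₀ k E γ t β a b) (j : ℕ) : L1 :=
  mkL1 (dU (PP (gC β a b)) j) (col_summable (De_summable (β := β) h.ds) (inj_add j)
    (norm_dU_le PP_gC_le j))

theorem Par.De_le (h : Par C K₀ k E γ t β a b) :
    ∑' m : ℤ, 2 ^ m.natAbs * ‖De β a b m‖ ≤ 4 * C * k ^ 3 + |β| := by
  rw [De_tsum h.ds]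
  linarith [h.db]

theorem Par.colU_norm (h : Par C K₀ k E γ t β a b) (j : ℕ) :
    ‖h.colcU j‖ + ‖h.coldU j‖ ≤ 8 * C * k ^ 3 + 2 * |β| := by
  have h1 : ‖h.colcU j‖ ≤ 4 * C * k ^ 3 + |β| :=
    col_norm (De_summable (β := β) h.ds) (nn _) h.De_le (inj_sub j)
      (norm_cU_le PP_gC_le0 PP_gC_le j)
  have h2 : ‖h.coldU j‖ ≤ 4 * C * k ^ 3 + |β| :=
    col_norm (De_summable (β := β) h.ds) (nn _) h.De_le (inj_add j) (norm_dU_le PP_gC_le j)
  linarith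

/-- the data -/
noncomputable def Par.data (h : Par C K₀ k E γ t β a b) : EData L1 where
  p0 := 1 / (γ + Real.log t)
  l := fn (vl E t (1 / (γ + Real.log t))) (2 * |1 / (γ + Real.log t)| * (t * ‖E 1‖ + C))
    (norm_vl_le h.hC h.ej h.t0.le (by linarith [h.t10]))
  A0 := mkL1 (vA E t) h.vA_summable
  R := op (fun _ => 0) (fun j => mkL1 (dR E t j) (h.dR_summable j)) (C * k) h.dR_norm
  U := op h.colcU h.coldU (8 * C * k ^ 3 + 2 * |β|) h.colU_norm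
  V := op h.colcV h.coldV (8 * C * k ^ 3) h.colV_norm
  G0 := mkL1 (vG (PP (gC β a b))) (col_summable h.ds inj_cast norm_vG_G)
  F0 := mkL1 (vG (Fo a b)) (col_summable h.fs inj_cast norm_vG_F)
  fF := fn (vf (Fo a b)) (4 * C * k ^ 3) (norm_vf_le h.fs h.fb)
  fG := fn (vf (Do a b)) (4 * C * k ^ 3) (norm_vf_le h.ds h.db)
  β := β

theorem bd_consts {C K : ℝ} (hC : 0 ≤ C) (hK : 1 ≤ K) :
    1 ≤ 10 * (1 + C) * (1 + K) ^ 2 ∧ C ≤ 10 * (1 + C) * (1 + K) ^ 2 ∧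
    8 * C ≤ 10 * (1 + C) * (1 + K) ^ 2 ∧ 8 * C + 2 * (1 + C) ≤ 10 * (1 + C) * (1 + K) ^ 2 ∧
    K ≤ 10 * (1 + C) * (1 + K) ^ 2 ∧ K + 2 * C ≤ 10 * (1 + C) * (1 + K) ^ 2 ∧
    2 * K * (K + C) ≤ 10 * (1 + C) * (1 + K) ^ 2 := by
  have hKK : (1 + K) ^ 2 = 1 + 2 * K + K ^ 2 := by ring
  have q0 : 1 ≤ K ^ 2 := by nlinarith
  have q1 : 0 ≤ C * K := by positivity
  have q2 : 0 ≤ C * K ^ 2 := by positivity
  have e0 : 10 * (1 + C) * (1 + K) ^ 2 = 10 + 20 * K + 10 * K ^ 2 + 10 * C + 20 * (C * K) +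
    10 * (C * K ^ 2) := by ring
  have e1 : 2 * K * (K + C) = 2 * K ^ 2 + 2 * (C * K) := by ring
  rw [e0, e1]
  refine ⟨?_, ?_, ?_, ?_, ?_, ?_, ?_⟩ <;> linarith

/-- the bounds for the data -/
theorem Par.bd (h : Par C K₀ k E γ t β a b)
    (hs : 1000 * (10 * (1 + C) * (1 + K₀) ^ 2) ^ 6 * k ≤ 1) :
    h.data.Bd (10 * (1 + C) * (1 + K₀) ^ 2) k := by
  have hC := h.hC
  have hK := h.hK
  have hk := h.hk
  have hk1 := h.hk1
  have ht := h.t0
  obtain ⟨c1, c2, c3, c4, c5, c6, c7⟩ := bd_consts hC hK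
  have nl : ‖h.data.l‖ ≤ 2 * |1 / (γ + Real.log t)| * (t * ‖E 1‖ + C) :=
    norm_fn_le _ _ (by positivity) (norm_vl_le h.hC h.ej h.t0.le (by linarith [h.t10]))
  have nR : ‖h.data.R‖ ≤ C * k := norm_op_le _ _ _ (by positivity) h.dR_norm
  have nU : ‖h.data.U‖ ≤ 8 * C * k ^ 3 + 2 * |β| := norm_op_le _ _ _ (by positivity) h.colU_norm
  have nV : ‖h.data.V‖ ≤ 8 * C * k ^ 3 := norm_op_le _ _ _ (by positivity) h.colV_norm
  have nfF : ‖h.data.fF‖ ≤ 4 * C * k ^ 3 := norm_fn_le _ _ (by positivity) (norm_vf_le h.fs h.fb)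
  have nfG : ‖h.data.fG‖ ≤ 4 * C * k ^ 3 := norm_fn_le _ _ (by positivity) (norm_vf_le h.ds h.db)
  have nG0 : ‖h.data.G0‖ ≤ 4 * C * k ^ 3 := col_norm h.ds (nn _) h.db inj_cast norm_vG_G
  have nF0 : ‖h.data.F0‖ ≤ 4 * C * k ^ 3 := col_norm h.fs (nn _) h.fb inj_cast norm_vG_F
  have nA0 : ‖h.data.A0‖ ≤ K₀ + 2 * C := h.vA_norm
  have np : |h.data.p0| ≤ K₀ * k ^ 2 := h.p0
  have nβ : k ^ 2 ≤ K₀ * |h.data.β| := h.β1
  have p := h.p0
  have q := h.e1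
  have hβ := h.β2
  generalize h.data = D at *
  clear h
  have hk2 : k ^ 2 ≤ k := by nlinarith
  have hk3 : k ^ 3 ≤ k := by nlinarith
  have hk0 : 0 ≤ k ^ 2 := by positivity
  have hk30 : 0 ≤ k ^ 3 := by positivity
  generalize 10 * (1 + C) * (1 + K₀) ^ 2 = K at *
  refine ⟨c1, hk, hs, np.trans (mul_le_mul_of_nonneg_right c5 hk0), nl.trans ?_, nA0.trans c6,
    nR.trans (mul_le_mul_of_nonneg_right c2 hk.le), nU.trans ?_, nV.trans ?_,
    nG0.trans (mul_le_mul_of_nonneg_right (by linarith) hk30),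
    nF0.trans (mul_le_mul_of_nonneg_right (by linarith) hk30),
    nfF.trans (mul_le_mul_of_nonneg_right (by linarith) hk30),
    nfG.trans (mul_le_mul_of_nonneg_right (by linarith) hk30),
    nβ.trans (mul_le_mul_of_nonneg_right c5 (abs_nonneg _))⟩
  · calc 2 * |1 / (γ + Real.log t)| * (t * ‖E 1‖ + C) ≤ 2 * (K₀ * k ^ 2) * (K₀ + C) := by
          apply mul_le_mul _ (by linarith) (by positivity) (by positivity)
          exact mul_le_mul_of_nonneg_left p (by norm_num)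
      _ = (2 * K₀ * (K₀ + C)) * k ^ 2 := by ring
      _ ≤ K * k ^ 2 := mul_le_mul_of_nonneg_right c7 hk0
  · calc 8 * C * k ^ 3 + 2 * |β| ≤ 8 * C * k + 2 * ((1 + C) * k) := by
          apply add_le_add
          · exact mul_le_mul_of_nonneg_left hk3 (by linarith)
          · apply mul_le_mul_of_nonneg_left _ (by norm_num)
            exact hβ.trans (mul_le_mul_of_nonneg_left hk2 (by linarith))
      _ = (8 * C + 2 * (1 + C)) * k := by ring
      _ ≤ _ := mul_le_mul_of_nonneg_right c4 hk.le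
  · calc 8 * C * k ^ 3 ≤ 8 * C * k := mul_le_mul_of_nonneg_left hk3 (by linarith)
      _ ≤ _ := mul_le_mul_of_nonneg_right c3 hk.le

end FB.Eig
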