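import Mathlib
import Pool.Agent.FB.Iface
import Pool.Agent.FB.Eig.Data

/-!
# From the fixed point to the equations of the second problem (module EIG, MP_15d50e_gt)
-/

open Complex Set
open scoped ComplexConjugate Real

namespace FB.Eig

variable {C K₀ k : ℝ} {E : ℕ → ℂ} {γ t β : ℝ} {a b : ℕ → ℂ}

/-! ## summability -/

theorem summable_ext {x : ℕ → ℂ} (hx : Summable fun n : ℕ => 2 ^ n * ‖x n‖) :
    Summable fun j : ℤ => 2 ^ j.natAbs * ‖ext x j‖ := by
  have h1 : Summable fun n : ℕ => (2 : ℝ) ^ (n + 1) * ‖x (n + 1)‖ :=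
    (summable_nat_add_iff (f := fun n : ℕ => (2 : ℝ) ^ n * ‖x n‖) 1).2 hx
  apply Summable.of_add_one_of_neg_add_one
  · refine h1.congr fun n => ?_
    have e : ((n : ℤ) + 1) = ((n + 1 : ℕ) : ℤ) := by push_cast; rfl
    rw [e, Int.natAbs_natCast, ext_pos (Nat.succ_pos n)]
  · refine h1.congr fun n => ?_
    have e : (-((n : ℤ) + 1)) = -((n + 1 : ℕ) : ℤ) := by push_cast; rfl
    rw [e, Int.natAbs_neg, Int.natAbs_natCast, ext_neg (Nat.succ_pos n), norm_negOne_pow_mul,
      RCLike.norm_conj]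

theorem summable_fC {x y : ℕ → ℂ} (hx : Summable fun n : ℕ => 2 ^ n * ‖x n‖)
    (hy : Summable fun n : ℕ => 2 ^ n * ‖y n‖) : Summable fun j : ℤ => ‖fC x y j‖ := by
  have h0 : HasSum (fun j : ℤ => if j = 0 then (1 : ℝ) else 0) 1 := hasSum_ite_eq 0 1
  refine Summable.of_nonneg_of_le (fun _ => norm_nonneg _) (fun j => ?_)
    ((h0.summable.add (summable_ext hx)).add (summable_ext hy))
  have p : (1 : ℝ) ≤ 2 ^ j.natAbs := one_le_pow₀ (by norm_num)
  have n1 := norm_nonneg (ext x j)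
  have n2 := norm_nonneg (ext y j)
  have m1 : ‖ext x j‖ ≤ 2 ^ j.natAbs * ‖ext x j‖ := le_mul_of_one_le_left n1 p
  have m2 : ‖ext y j‖ ≤ 2 ^ j.natAbs * ‖ext y j‖ := le_mul_of_one_le_left n2 p
  unfold fC
  by_cases hj : j = 0
  · rw [if_pos hj, if_pos hj, norm_one]
    linarith
  · rw [if_neg hj, if_neg hj]
    have := norm_add_le (ext x j) (ext y j)
    linarith

theorem summable_gC {B : ℝ} {x y : ℕ → ℂ} (hx : Summable fun n : ℕ => 2 ^ n * ‖x n‖)
    (hy : Summable fun n : ℕ => 2 ^ n * ‖y n‖) : Summable fun j : ℤ => ‖gC B x y j‖ := by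
  have h0 : HasSum (fun j : ℤ => if j = 0 then |B| else 0) |B| := hasSum_ite_eq 0 |B|
  refine Summable.of_nonneg_of_le (fun _ => norm_nonneg _) (fun j => ?_)
    ((h0.summable.add (summable_ext hx)).add (summable_ext hy))
  have p : (j.natAbs : ℝ) ≤ 2 ^ j.natAbs := by linarith [nat_lt_two_pow_real j.natAbs]
  have n1 := norm_nonneg (ext x j)
  have n2 := norm_nonneg (ext y j)
  have m1 : j.natAbs * ‖ext x j‖ ≤ 2 ^ j.natAbs * ‖ext x j‖ := mul_le_mul_of_nonneg_right p n1
  have m2 : j.natAbs * ‖ext y j‖ ≤ 2 ^ j.natAbs * ‖ext y j‖ := mul_le_mul_of_nonneg_right p n2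
  unfold gC
  by_cases hj : j = 0
  · rw [if_pos hj, if_pos hj, Complex.norm_real, Real.norm_eq_abs]
    have : 0 ≤ 2 ^ j.natAbs * ‖ext x j‖ := by positivity
    have : 0 ≤ 2 ^ j.natAbs * ‖ext y j‖ := by positivity
    linarith
  · rw [if_neg hj, if_neg hj, norm_mul, Complex.norm_natCast]
    have h1 := norm_sub_le (ext x j) (ext y j)
    have h2 : (j.natAbs : ℝ) * ‖ext x j - ext y j‖ ≤ j.natAbs * (‖ext x j‖ + ‖ext y j‖) :=
      mul_le_mul_of_nonneg_left h1 (Nat.cast_nonneg _)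
    linarith

theorem summable_conv {P z : ℤ → ℂ} {φ : ℝ} (hP : ∀ m, ‖P m‖ ≤ φ) (hz : Summable fun j => ‖z j‖)
    (n : ℤ) : Summable fun j => P (n - j) * z j := by
  refine Summable.of_norm_bounded (hz.mul_left φ) fun j => ?_
  rw [norm_mul]
  exact mul_le_mul_of_nonneg_right (hP _) (norm_nonneg _)

theorem Par.Fo_le (h : Par C K₀ k E γ t β a b) (m : ℤ) : ‖Fo a b m‖ ≤ 4 * C * k ^ 3 := by
  refine le_trans ?_ (norm_le_of_weight h.fs h.fb m)
  exact le_mul_of_one_le_left (norm_nonneg _) (one_le_pow₀ (by norm_num))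

theorem Par.Gg_le (h : Par C K₀ k E γ t β a b) (m : ℤ) :
    ‖PP (gC β a b) m‖ ≤ 4 * C * k ^ 3 + |β| := by
  by_cases hm : m = 0
  · subst hm
    rw [PP_gC_zero, Complex.norm_real, Real.norm_eq_abs]
    have := h.hC
    have := h.hk
    have : 0 ≤ 4 * C * k ^ 3 := by positivity
    linarith
  · have h1 := norm_le_of_weight h.ds h.db m
    have h2 : (m.natAbs : ℝ) ≤ 2 ^ m.natAbs := by linarith [nat_lt_two_pow_real m.natAbs]
    rw [PP_gC hm, norm_mul, Complex.norm_natCast]
    have h3 := mul_le_mul_of_nonneg_right h2 (norm_nonneg (Do a b m))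
    have := abs_nonneg β
    linarith

/-- splitting off the constant coefficient of `P f` -/
theorem conv_PP_fC (h : Par C K₀ k E γ t β a b) {z : ℤ → ℂ} (hz : Summable fun j => ‖z j‖) (n : ℤ) :
    conv (PP (fC a b)) z n = z n + conv (Fo a b) z n := by
  have e : ∀ j : ℤ, PP (fC a b) j * z (n - j) =
      (if j = 0 then z n else 0) + Fo a b j * z (n - j) := by
    intro j
    by_cases hj : j = 0
    · subst hj
      rw [if_pos rfl, PP_fC_zero, Fo, if_pos rfl, sub_zero]
      ring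
    · rw [if_neg hj, Fo, if_neg hj, zero_add]
  have hs : Summable fun j : ℤ => Fo a b j * z (n - j) := by
    have h1 := summable_conv h.Fo_le hz n
    refine ((Equiv.subLeft n).summable_iff.2 h1).congr fun j => ?_
    simp
  have h0 : HasSum (fun j : ℤ => if j = 0 then z n else 0) (z n) := hasSum_ite_eq 0 _
  unfold conv
  rw [tsum_congr e, h0.summable.tsum_add hs, h0.tsum_eq]

/-! ## evaluation of the operators -/

theorem Par.al_apply (h : Par C K₀ k E γ t β a b) (x : L1) (n : ℕ) :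
    h.data.al x n = (h.data.be x : ℂ) * vA E t n + ∑' j, starRingEnd ℂ (x j) * dR E t j n := by
  have e1 : h.data.al x n = h.data.be x • (mkL1 (vA E t) h.vA_summable n) +
      (op (fun _ => 0) (fun j => mkL1 (dR E t j) (h.dR_summable j)) (C * k) h.dR_norm x) n := rfl
  rw [e1, op_apply, mkL1_apply, Complex.real_smul]
  congr 1
  refine tsum_congr fun j => ?_
  have : ((0 : L1) : ℕ → ℂ) n = 0 := rfl
  rw [this, mul_zero, zero_add, mkL1_apply]

theorem Par.xn_apply (h : Par C K₀ k E γ t β a b) (σ : ℝ) (x : L1) (n : ℕ) :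
    h.data.xn σ x n = h.data.al x n - σ * (vG (PP (gC β a b)) n +
      ∑' j, ((h.data.al x + x) j * cU (PP (gC β a b)) j n +
        starRingEnd ℂ ((h.data.al x + x) j) * dU (PP (gC β a b)) j n)) +
      (h.data.be x : ℂ) * vG (Fo a b) n +
      ∑' j, ((h.data.al x - x) j * cV (Fo a b) j n +
        starRingEnd ℂ ((h.data.al x - x) j) * dV (Fo a b) j n) := by
  have e1 : h.data.xn σ x n = h.data.al x n - σ • (vG (PP (gC β a b)) n +
      (op h.colcU h.coldU (8 * C * k ^ 3 + 2 * |β|) h.colU_norm (h.data.al x + x)) n) +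
      h.data.be x • (vG (Fo a b) n) +
      (op h.colcV h.coldV (8 * C * k ^ 3) h.colV_norm (h.data.al x - x)) n := rfl
  rw [e1, op_apply, op_apply, Complex.real_smul, Complex.real_smul]
  rfl

theorem cV_zero (P : ℤ → ℂ) (j : ℕ) : cV P j 0 = 0 := by simp [cV]
theorem dV_zero (P : ℤ → ℂ) (j : ℕ) : dV P j 0 = 0 := by simp [dV]
theorem cU_zero (P : ℤ → ℂ) (j : ℕ) : cU P j 0 = 0 := by simp [cU]
theorem dU_zero (P : ℤ → ℂ) (j : ℕ) : dU P j 0 = 0 := by simp [dU]
theorem dR_zero (j : ℕ) : dR E t j 0 = 0 := by simp [dR]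
theorem vA_zero : vA E t 0 = 0 := by simp [vA]
theorem vG_zero (P : ℤ → ℂ) : vG P 0 = 0 := by simp [vG]

theorem Par.al_zero (h : Par C K₀ k E γ t β a b) (x : L1) : h.data.al x 0 = 0 := by
  rw [h.al_apply, vA_zero]
  simp [dR_zero]

theorem Par.xn_zero (h : Par C K₀ k E γ t β a b) (σ : ℝ) (x : L1) : h.data.xn σ x 0 = 0 := by
  rw [h.xn_apply, h.al_zero, vG_zero, vG_zero]
  simp [cV_zero, dV_zero, cU_zero, dU_zero]

/-- unscaled coordinates -/
noncomputable def un (x : L1) (n : ℕ) : ℂ := x n / 2 ^ n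

theorem two_pow_mul_norm_un (x : L1) (n : ℕ) : 2 ^ n * ‖un x n‖ = ‖x n‖ := by
  unfold un
  rw [norm_div, norm_pow]
  have : ‖(2 : ℂ)‖ = 2 := by simp
  rw [this]
  field_simp

theorem summable_un (x : L1) : Summable fun n : ℕ => 2 ^ n * ‖un x n‖ :=
  (L1.summ x).congr fun n => (two_pow_mul_norm_un x n).symm

theorem wbound_un {x : L1} {B : ℝ} (hx : ‖x‖ ≤ B) : WBound (un x) B := by
  refine ⟨summable_un x, ?_⟩
  rw [tsum_congr (two_pow_mul_norm_un x), ← L1.norm_eq]
  exact hx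

theorem un_conj (x : L1) (n : ℕ) : conj (un x n) = starRingEnd ℂ (x n) / 2 ^ n := by
  unfold un
  rw [map_div₀, map_pow]
  congr 2
  exact Complex.conj_ofNat 2

/-- `a'` is given by the formula `regC`. -/
theorem Par.reg (h : Par C K₀ k E γ t β a b) (x : L1) :
    un (h.data.al x) = regC E t (h.data.be x) (un x) := by
  funext n
  unfold regC
  by_cases hn : n = 0
  · subst hn
    rw [if_pos rfl, un, h.al_zero, zero_div]
  · rw [if_neg hn, un, h.al_apply]
    have hs : Summable fun j => starRingEnd ℂ (x j) * dR E t j n := by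
      have h1 := op_apply_summable (fun _ => 0) (fun j => mkL1 (dR E t j) (h.dR_summable j)) (C * k)
        h.dR_norm x n
      refine h1.congr fun j => ?_
      have : ((0 : L1) : ℕ → ℂ) n = 0 := rfl
      rw [this, mul_zero, zero_add, mkL1_apply]
    have h0 : starRingEnd ℂ (x 0) * dR E t 0 n = 0 := by
      have : dR E t 0 n = 0 := by simp [dR]
      rw [this, mul_zero]
    rw [hs.tsum_eq_zero_add, h0, zero_add]
    have h2n : (2 : ℂ) ^ n ≠ 0 := pow_ne_zero _ (by norm_num)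
    have hn' : (n : ℂ) ≠ 0 := by exact_mod_cast hn
    have e1 : ∑' j : ℕ, starRingEnd ℂ (x (j + 1)) * dR E t (j + 1) n = 2 ^ n * (t : ℂ) ^ n *
        ∑' m : ℕ, (Nat.choose (m + n) n : ℂ) * (t : ℂ) ^ (m + 1) * E (m + 1 + n) *
          conj (un x (m + 1)) := by
      rw [← tsum_mul_left]
      refine tsum_congr fun m => ?_
      have hc : ¬ (n = 0 ∨ m + 1 = 0) := by omega
      rw [dR, if_neg hc, un_conj, Nat.add_sub_cancel]
      push_cast
      have : (2 : ℂ) ^ (m + 1) ≠ 0 := pow_ne_zero _ (by norm_num)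
      field_simp
    rw [e1, vA, if_neg hn]
    push_cast
    rw [mul_pow]
    field_simp

/-- the normalisation -/
theorem Par.one (h : Par C K₀ k E γ t β a b) (x : L1) :
    constC E γ t (h.data.be x) (un x) = 1 := by
  have hne := h.ne
  have e1 : h.data.be x = 1 / (γ + Real.log t) +
      ∑' j, (vl E t (1 / (γ + Real.log t)) j * x j).re := rfl
  have hs : Summable fun j => (vl E t (1 / (γ + Real.log t)) j * x j).re :=
    fn_summable (norm_vl_le h.hC h.ej h.t0.le (by linarith [h.t10])) x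
  have h0 : (vl E t (1 / (γ + Real.log t)) 0 * x 0).re = 0 := by simp [vl]
  have e2 : ∑' j, (vl E t (1 / (γ + Real.log t)) j * x j).re = -(2 / (γ + Real.log t)) *
      ∑' m : ℕ, t ^ (m + 1) * (E (m + 1) * conj (un x (m + 1))).re := by
    rw [hs.tsum_eq_zero_add, h0, zero_add, ← tsum_mul_left]
    refine tsum_congr fun m => ?_
    rw [vl, if_neg (Nat.succ_ne_zero m)]
    have f1 : (E (m + 1) * conj (un x (m + 1))).re = (conj (E (m + 1)) * un x (m + 1)).re := by
      rw [← Complex.conj_re (E (m + 1) * conj (un x (m + 1))), map_mul, conj_conj]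
    have f2 : un x (m + 1) = ((1 / 2 ^ (m + 1) : ℝ) : ℂ) * x (m + 1) := by
      unfold un
      push_cast
      ring
    rw [f1, f2]
    have f3 : -(((2 * (1 / (γ + Real.log t)) * t ^ (m + 1) / 2 ^ (m + 1) : ℝ) : ℂ) *
        conj (E (m + 1))) * x (m + 1) =
        ((-(2 * (1 / (γ + Real.log t)) * t ^ (m + 1) / 2 ^ (m + 1)) : ℝ) : ℂ) *
          (conj (E (m + 1)) * x (m + 1)) := by
      push_cast
      ring
    have f4 : conj (E (m + 1)) * (((1 / 2 ^ (m + 1) : ℝ) : ℂ) * x (m + 1)) =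
        ((1 / 2 ^ (m + 1) : ℝ) : ℂ) * (conj (E (m + 1)) * x (m + 1)) := by ring
    rw [f3, f4, Complex.re_ofReal_mul, Complex.re_ofReal_mul]
    ring
  unfold constC
  rw [e1, e2]
  field_simp
  ring

end FB.Eig
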