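import Mathlib
import Pool.Agent.FB.Iface
import Pool.Agent.FB.Eig.Eq

/-!
# The equations of the second problem for all coefficients (module EIG, MP_15d50e_gt)
-/

open Complex Set
open scoped ComplexConjugate Real

namespace FB.Eig

variable {C K₀ k : ℝ} {E : ℕ → ℂ} {γ t β : ℝ} {a b : ℕ → ℂ}

theorem un_add (y x : L1) (n : ℕ) : un (y + x) n = un y n + un x n := by
  unfold un
  have : (y + x) n = y n + x n := rfl
  rw [this, add_div]

theorem un_sub (y x : L1) (n : ℕ) : un (y - x) n = un y n - un x n := by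
  unfold un
  have : (y - x) n = y n - x n := rfl
  rw [this, sub_div]

theorem sum_U (P : ℤ → ℂ) (z : L1) {n : ℕ} (hn : n ≠ 0) :
    ∑' j, (z j * cU P j n + starRingEnd ℂ (z j) * dU P j n) = 2 ^ n / n *
      ∑' j : ℕ, (if j = 0 then 0 else P ((n : ℤ) - j) * un z j +
        P ((n : ℤ) + j) * ((-1) ^ j * conj (un z j))) := by
  rw [← tsum_mul_left]
  refine tsum_congr fun j => ?_
  by_cases hj : j = 0
  · rw [if_pos hj, cU, dU, if_pos (Or.inr hj), if_pos (Or.inr hj)]
    ring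
  · have hc : ¬ (n = 0 ∨ j = 0) := by tauto
    rw [if_neg hj, cU, dU, if_neg hc, if_neg hc, un_conj]
    unfold un
    push_cast
    have h1 : (2 : ℂ) ^ j ≠ 0 := pow_ne_zero _ (by norm_num)
    have h2 : (n : ℂ) ≠ 0 := by exact_mod_cast hn
    field_simp

theorem sum_V (P : ℤ → ℂ) (z : L1) {n : ℕ} (hn : n ≠ 0) :
    ∑' j, (z j * cV P j n + starRingEnd ℂ (z j) * dV P j n) = 2 ^ n / n *
      ∑' j : ℕ, (if j = 0 then 0 else P ((n : ℤ) - j) * (j * un z j) +
        P ((n : ℤ) + j) * (j * ((-1) ^ j * conj (un z j)))) := by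
  rw [← tsum_mul_left]
  refine tsum_congr fun j => ?_
  by_cases hj : j = 0
  · rw [if_pos hj, cV, dV, if_pos (Or.inr hj), if_pos (Or.inr hj)]
    ring
  · have hc : ¬ (n = 0 ∨ j = 0) := by tauto
    rw [if_neg hj, cV, dV, if_neg hc, if_neg hc, un_conj]
    unfold un
    push_cast
    have h1 : (2 : ℂ) ^ j ≠ 0 := pow_ne_zero _ (by norm_num)
    have h2 : (n : ℂ) ≠ 0 := by exact_mod_cast hn
    field_simp

theorem fC_pos {x y : ℕ → ℂ} {j : ℕ} (hj : j ≠ 0) : fC x y (j : ℤ) = x j + y j := by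
  have h1 : (j : ℤ) ≠ 0 := by exact_mod_cast hj
  rw [fC, if_neg h1, ext_pos (Nat.pos_of_ne_zero hj), ext_pos (Nat.pos_of_ne_zero hj)]

theorem gC_pos {B : ℝ} {x y : ℕ → ℂ} {j : ℕ} (hj : j ≠ 0) :
    gC B x y (j : ℤ) = j * (x j - y j) := by
  have h1 : (j : ℤ) ≠ 0 := by exact_mod_cast hj
  rw [gC, if_neg h1, ext_pos (Nat.pos_of_ne_zero hj), ext_pos (Nat.pos_of_ne_zero hj),
    Int.natAbs_natCast]

theorem fC_neg {x y : ℕ → ℂ} {j : ℕ} (hj : j ≠ 0) :
    fC x y (-(j : ℤ)) = (-1) ^ j * conj (x j + y j) := by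
  rw [isH_fC (j : ℤ), fC_pos hj, Int.natAbs_natCast]

theorem gC_neg {B : ℝ} {x y : ℕ → ℂ} {j : ℕ} (hj : j ≠ 0) :
    gC B x y (-(j : ℤ)) = j * ((-1) ^ j * conj (x j - y j)) := by
  rw [isH_gC (j : ℤ), gC_pos hj, Int.natAbs_natCast, map_mul, Complex.conj_natCast]
  ring

theorem conv_fC {P : ℤ → ℂ} {φ : ℝ} (hP : ∀ m, ‖P m‖ ≤ φ) (y x : L1) (n : ℤ) :
    conv P (fC (un y) (un x)) n = P n +
      ∑' j : ℕ, (if j = 0 then 0 else P (n - j) * un (y + x) j +
        P (n + j) * ((-1) ^ j * conj (un (y + x) j))) := by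
  rw [conv_split n (summable_conv hP (summable_fC (summable_un y) (summable_un x)) n)]
  have h0 : fC (un y) (un x) 0 = 1 := by simp [fC]
  rw [h0, mul_one]
  congr 1
  refine tsum_congr fun j => ?_
  by_cases hj : j = 0
  · rw [if_pos hj, if_pos hj]
  · rw [if_neg hj, if_neg hj, fC_pos hj, fC_neg hj, un_add]

theorem conv_gC {P : ℤ → ℂ} {φ : ℝ} (hP : ∀ m, ‖P m‖ ≤ φ) (B : ℝ) (y x : L1) (n : ℤ) :
    conv P (gC B (un y) (un x)) n = P n * B +
      ∑' j : ℕ, (if j = 0 then 0 else P (n - j) * (j * un (y - x) j) +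
        P (n + j) * (j * ((-1) ^ j * conj (un (y - x) j)))) := by
  rw [conv_split n (summable_conv hP (summable_gC (summable_un y) (summable_un x)) n)]
  have h0 : gC B (un y) (un x) 0 = B := by simp [gC]
  rw [h0]
  congr 1
  refine tsum_congr fun j => ?_
  by_cases hj : j = 0
  · rw [if_pos hj, if_pos hj]
  · rw [if_neg hj, if_neg hj, gC_pos hj, gC_neg hj, un_sub]

/-- the equation for positive index -/
theorem Par.eq_pos (h : Par C K₀ k E γ t β a b) {σ : ℝ} {x : L1} (hx : h.data.xn σ x = x) {n : ℕ}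
    (hn : n ≠ 0) :
    conv (PP (fC a b)) (gC (h.data.be x) (un (h.data.al x)) (un x)) n =
      σ * conv (PP (gC β a b)) (fC (un (h.data.al x)) (un x)) n := by
  rw [conv_PP_fC h (summable_gC (summable_un _) (summable_un x)), conv_gC h.Fo_le,
    conv_fC h.Gg_le, gC_pos hn]
  have h1 := h.xn_apply σ x n
  rw [hx, sum_U _ _ hn, sum_V _ _ hn, vG, vG, if_neg hn, if_neg hn] at h1
  set S1 := ∑' j : ℕ, (if j = 0 then 0 else PP (gC β a b) ((n : ℤ) - j) * un (h.data.al x + x) j +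
        PP (gC β a b) ((n : ℤ) + j) * ((-1) ^ j * conj (un (h.data.al x + x) j)))
  set S2 := ∑' j : ℕ, (if j = 0 then 0 else Fo a b ((n : ℤ) - j) * (j * un (h.data.al x - x) j) +
        Fo a b ((n : ℤ) + j) * (j * ((-1) ^ j * conj (un (h.data.al x - x) j))))
  have h2n : (2 : ℂ) ^ n ≠ 0 := pow_ne_zero _ (by norm_num)
  have hn' : (n : ℂ) ≠ 0 := by exact_mod_cast hn
  unfold un
  push_cast at h1
  have h2 : h.data.al x n - x n = σ * (2 ^ n / n * PP (gC β a b) n + 2 ^ n / n * S1) -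
      (h.data.be x : ℂ) * (2 ^ n / n * Fo a b n) - 2 ^ n / n * S2 := by
    linear_combination -h1
  rw [← sub_div, h2]
  field_simp
  ring

theorem sym_term {Q : ℤ → ℂ} (hneg : ∀ m, Q (-m) = Q m) (hzero : ∀ m : ℤ, ¬ (4 : ℤ) ∣ m → Q m = 0)
    (him : ∀ m, (Q m).im = 0) (j : ℕ) (w : ℂ) :
    Q (0 - (j : ℤ)) * w + Q (0 + (j : ℤ)) * ((-1) ^ j * conj w) = ((2 * (Q j * w).re : ℝ) : ℂ) := by
  rw [zero_sub, zero_add, hneg]
  by_cases h4 : (4 : ℤ) ∣ (j : ℤ)
  · have e1 : (-1 : ℂ) ^ j = 1 := by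
      have := negOne_four h4
      rwa [Int.natAbs_natCast] at this
    have e2 : Q (j : ℤ) = (((Q (j : ℤ)).re : ℝ) : ℂ) := by
      apply Complex.ext <;> simp [him]
    rw [e1, e2, Complex.re_ofReal_mul]
    have e3 : w + conj w = ((2 * w.re : ℝ) : ℂ) := Complex.add_conj w
    rw [one_mul, ← mul_add, e3]
    push_cast
    ring
  · rw [hzero _ h4]
    simp

theorem PP_neg {x : ℤ → ℂ} (hx : IsH x) (m : ℤ) : PP x (-m) = PP x m := by
  have h1 := isH_PP hx m
  by_cases h4 : (4 : ℤ) ∣ m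
  · rw [h1, negOne_four h4, one_mul, PP, if_pos h4, Complex.conj_ofReal]
  · have h4' : ¬ (4 : ℤ) ∣ -m := fun hc => h4 ((dvd_neg).1 hc)
    rw [PP, PP, if_neg h4, if_neg h4']

theorem PP_eq_zero {x : ℤ → ℂ} {m : ℤ} (h4 : ¬ (4 : ℤ) ∣ m) : PP x m = 0 := by
  rw [PP, if_neg h4]

theorem PP_im {x : ℤ → ℂ} (m : ℤ) : (PP x m).im = 0 := by
  unfold PP
  split_ifs <;> simp

/-- the equation for the constant coefficient -/
theorem Par.eq_zero (h : Par C K₀ k E γ t β a b) {σ : ℝ} {x : L1}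
    (hx : h.data.be x + h.data.fF (h.data.al x - x) =
      σ * (h.data.β + h.data.fG (h.data.al x + x))) :
    conv (PP (fC a b)) (gC (h.data.be x) (un (h.data.al x)) (un x)) 0 =
      σ * conv (PP (gC β a b)) (fC (un (h.data.al x)) (un x)) 0 := by
  rw [conv_PP_fC h (summable_gC (summable_un _) (summable_un x)), conv_gC h.Fo_le,
    conv_fC h.Gg_le]
  have h0 : gC (h.data.be x) (un (h.data.al x)) (un x) 0 = h.data.be x := by simp [gC]
  have h00 : Fo a b 0 = 0 := by simp [Fo]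
  rw [h0, h00, PP_gC_zero, zero_mul, zero_add]
  have e1 : (h.data.fF (h.data.al x - x) : ℂ) =
      ∑' j : ℕ, (if j = 0 then 0 else Fo a b (0 - j) * (j * un (h.data.al x - x) j) +
        Fo a b (0 + j) * (j * ((-1) ^ j * conj (un (h.data.al x - x) j)))) := by
    have : h.data.fF (h.data.al x - x) = ∑' j, (vf (Fo a b) j * (h.data.al x - x) j).re := rfl
    rw [this, Complex.ofReal_tsum]
    refine tsum_congr fun j => ?_
    by_cases hj : j = 0
    · rw [if_pos hj, vf, if_pos hj]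
      simp
    · rw [if_neg hj, vf, if_neg hj]
      have key := sym_term (Q := Fo a b) Fo_neg (fun m hm => Fo_eq_zero hm) Fo_im j
        (un (h.data.al x - x) j)
      have e2 : Fo a b (0 - j) * (j * un (h.data.al x - x) j) +
        Fo a b (0 + j) * (j * ((-1) ^ j * conj (un (h.data.al x - x) j))) =
        j * (Fo a b (0 - j) * un (h.data.al x - x) j +
        Fo a b (0 + j) * ((-1) ^ j * conj (un (h.data.al x - x) j))) := by ring
      rw [e2, key]
      have e3 : ((2 * j / 2 ^ j : ℝ) : ℂ) * Fo a b j * (h.data.al x - x) j =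
          ((2 * j : ℝ) : ℂ) * (Fo a b j * un (h.data.al x - x) j) := by
        unfold un
        push_cast
        ring
      rw [e3, Complex.re_ofReal_mul]
      push_cast
      ring
  have e2 : (h.data.fG (h.data.al x + x) : ℂ) =
      ∑' j : ℕ, (if j = 0 then 0 else PP (gC β a b) (0 - j) * un (h.data.al x + x) j +
        PP (gC β a b) (0 + j) * ((-1) ^ j * conj (un (h.data.al x + x) j))) := by
    have : h.data.fG (h.data.al x + x) = ∑' j, (vf (Do a b) j * (h.data.al x + x) j).re := rfl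
    rw [this, Complex.ofReal_tsum]
    refine tsum_congr fun j => ?_
    by_cases hj : j = 0
    · rw [if_pos hj, vf, if_pos hj]
      simp
    · rw [if_neg hj, vf, if_neg hj]
      have key := sym_term (Q := PP (gC β a b)) (PP_neg isH_gC) (fun m hm => PP_eq_zero hm)
        PP_im j (un (h.data.al x + x) j)
      have hj' : (j : ℤ) ≠ 0 := by exact_mod_cast hj
      rw [key, PP_gC hj', Int.natAbs_natCast]
      have e3 : ((2 * j / 2 ^ j : ℝ) : ℂ) * Do a b j * (h.data.al x + x) j =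
          ((2 : ℝ) : ℂ) * ((j : ℂ) * Do a b j * un (h.data.al x + x) j) := by
        unfold un
        push_cast
        ring
      rw [e3, Complex.re_ofReal_mul]
  rw [← e1, ← e2]
  have hb : h.data.β = β := rfl
  rw [hb] at hx
  exact_mod_cast hx

/-- all equations -/
theorem Par.eq_all (h : Par C K₀ k E γ t β a b) {σ : ℝ} {x : L1} (hx : h.data.xn σ x = x)
    (hx0 : h.data.be x + h.data.fF (h.data.al x - x) =
      σ * (h.data.β + h.data.fG (h.data.al x + x))) (n : ℤ) :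
    conv (PP (fC a b)) (gC (h.data.be x) (un (h.data.al x)) (un x)) n =
      σ * conv (PP (gC β a b)) (fC (un (h.data.al x)) (un x)) n := by
  rcases lt_trichotomy n 0 with hn | hn | hn
  · obtain ⟨j, rfl⟩ : ∃ j : ℕ, n = -(j : ℤ) := ⟨n.natAbs, by omega⟩
    have hj : j ≠ 0 := by omega
    rw [isH_conv (isH_PP isH_fC) isH_gC, isH_conv (isH_PP isH_gC) isH_fC, h.eq_pos hx hj, map_mul,
      Complex.conj_ofReal]
    ring
  · rw [hn]
    exact h.eq_zero hx0
  · obtain ⟨j, rfl⟩ : ∃ j : ℕ, n = (j : ℤ) := ⟨n.natAbs, by omega⟩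
    have hj : j ≠ 0 := by omega
    exact h.eq_pos hx hj

end FB.Eig
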