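import Mathlib
import Pool.Agent.FB.Iface

/-!
# Bounds for the parameters of the second problem (module EIG, MP_15d50e_gt)
-/

open Complex Set
open scoped ComplexConjugate Real

namespace FB.Eig

theorem t_range {k t : ℝ} (hk : 0 < k) (h : |t / k - 1 / (2 * Real.sqrt 2 * π)| ≤ 1 / 100) :
    k / 10 ≤ t ∧ t ≤ k / 8 := by
  have h2 : (141 / 100 : ℝ) ≤ Real.sqrt 2 := by
    apply Real.le_sqrt_of_sq_le; norm_num
  have h2' : Real.sqrt 2 ≤ (142 / 100 : ℝ) := by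
    rw [Real.sqrt_le_left (by norm_num)]; norm_num
  have hp : (3.14 : ℝ) < π := Real.pi_gt_d2
  have hp' : π < (3.15 : ℝ) := Real.pi_lt_d2
  have hpos : 0 < 2 * Real.sqrt 2 * π := by positivity
  have hl : (8.85 : ℝ) ≤ 2 * Real.sqrt 2 * π := by nlinarith
  have hu : 2 * Real.sqrt 2 * π ≤ (8.95 : ℝ) := by nlinarith
  have hi1 : 1 / (2 * Real.sqrt 2 * π) ≤ 1 / 8.85 :=
    one_div_le_one_div_of_le (by norm_num) hl
  have hi2 : 1 / 8.95 ≤ 1 / (2 * Real.sqrt 2 * π) := one_div_le_one_div_of_le hpos hu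
  rw [abs_le] at h
  have e1 : (1 / 10 : ℝ) ≤ t / k := by
    have : (1 / 10 : ℝ) ≤ 1 / 8.95 - 1 / 100 := by norm_num
    linarith [h.1]
  have e2 : t / k ≤ (1 / 8 : ℝ) := by
    have : (1 / 8.85 : ℝ) + 1 / 100 ≤ 1 / 8 := by norm_num
    linarith [h.2]
  rw [le_div_iff₀ hk] at e1
  rw [div_le_iff₀ hk] at e2
  constructor <;> linarith

/-- Bounds for all parameters of the second problem. PROOF. `tnear` and
`1/10 < 1/(2 √2 π) < 1/8` give the bounds for `t`. `‖E' 1‖ ‖κ'‖ ≤ 2π + C‖κ'‖`, `t ≤ ‖κ‖/8 ≤ 3‖κ'‖/8`.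
`|γ'‖κ'‖² + 2π| ≤ C‖κ'‖`, `|log t| = log (1/t) ≤ 1/t ≤ 10/‖κ‖`, so
`|(γ' + log t)‖κ'‖² + 2π| ≤ (C + 10)‖κ‖ ≤ 1`; with `y = (γ' + log t)‖κ'‖²`, `|y| ≥ 2π - 1 ≥ 1`,
`1/(γ'+log t) = ‖κ'‖²/y` and `|1/y + 1/(2π)| = |y + 2π|/(2π|y|) ≤ (C+10)‖κ‖`. `β` from `βnear`. -/
theorem eig_params (C : ℝ) (hC : 0 < C) : ∃ K κ₁ : ℝ, 1 ≤ K ∧ 0 < κ₁ ∧ ∀ κ κ' : ℂ,
    0 < ‖κ‖ → ‖κ‖ ≤ κ₁ → ‖κ‖ ≤ 3 * ‖κ'‖ → ‖κ'‖ ≤ ‖κ‖ →
    ∀ (E : ℕ → ℂ) (γ t β : ℝ) (a b : ℕ → ℂ), IsFix κ C E γ t β a b →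
    ∀ (E' : ℕ → ℂ) (γ' : ℝ), LatBounds κ' C E' γ' →
    ‖κ‖ / 10 ≤ t ∧ t ≤ ‖κ‖ / 8 ∧ t * ‖E' 1‖ ≤ K ∧ γ' + Real.log t ≠ 0 ∧
    |1 / (γ' + Real.log t)| ≤ K * ‖κ‖ ^ 2 ∧
    |1 / (γ' + Real.log t) + ‖κ'‖ ^ 2 / (2 * π)| ≤ K * ‖κ‖ ^ 3 ∧
    ‖κ‖ ^ 2 ≤ K * |β| := by
  refine ⟨C + 10, min (1 / (100 * C)) (1 / (C + 10)), by linarith, by positivity, ?_⟩
  intro κ κ' hk hκ h3 hle E γ t β a b hF E' γ' hL
  have hCk : C * ‖κ‖ ≤ 1 / 100 := by
    have h := hκ.trans (min_le_left _ _)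
    rw [le_div_iff₀ (by positivity)] at h
    linarith
  have hCk' : (C + 10) * ‖κ‖ ≤ 1 := by
    have h := hκ.trans (min_le_right _ _)
    rw [le_div_iff₀ (by positivity)] at h
    linarith
  obtain ⟨ht1, ht2⟩ := t_range hk (hF.tnear.trans hCk)
  have ht : 0 < t := by linarith
  have hβ := hF.βnear
  have he1 := hL.e1
  have hgam := hL.gam
  have hkap' : 0 < ‖κ'‖ := by linarith
  set k := ‖κ‖ with hkdef
  set k' := ‖κ'‖ with hkdef'
  have hCk1 : C * k' ≤ 1 / 100 := (mul_le_mul_of_nonneg_left hle hC.le).trans hCk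
  have hk1 : k ≤ 1 / 10 := by nlinarith
  have hpi3 : 3 < π := Real.pi_gt_three
  have hpi4 : π < 3.15 := Real.pi_lt_d2
  have hk2 : k' ^ 2 ≤ k ^ 2 := by gcongr
  -- the quantity y
  set g := γ' + Real.log t with hg
  have hy : |g * k' ^ 2 + 2 * π| ≤ (C + 10) * k := by
    have e : g * k' ^ 2 + 2 * π = (γ' * k' ^ 2 + 2 * π) + Real.log t * k' ^ 2 := by
      rw [hg]; ring
    rw [e]
    refine (abs_add_le _ _).trans ?_
    have hlog : |Real.log t| ≤ 10 / k := by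
      have h1 : Real.log t ≤ 0 := Real.log_nonpos ht.le (by linarith)
      rw [abs_of_nonpos h1, ← Real.log_inv]
      have h2 := Real.log_le_sub_one_of_pos (inv_pos.mpr ht)
      have h3 : t⁻¹ ≤ 10 / k := by
        rw [inv_eq_one_div, div_le_div_iff₀ ht hk]
        linarith
      linarith
    have h5 : |Real.log t * k' ^ 2| ≤ 10 * k := by
      rw [abs_mul, abs_of_nonneg (by positivity : 0 ≤ k' ^ 2)]
      calc |Real.log t| * k' ^ 2 ≤ 10 / k * k ^ 2 := by gcongr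
        _ = 10 * k := by field_simp
    have h6 : C * k' ≤ C * k := by gcongr
    linarith
  have hy1 : |g * k' ^ 2 + 2 * π| ≤ 1 := hy.trans hCk'
  set y := g * k' ^ 2 with hydef
  have hyneg : y ≤ -1 := by
    have := (abs_le.mp hy1).2
    linarith
  have hyabs : 1 ≤ |y| := by
    rw [abs_of_neg (by linarith)]
    linarith
  have hy0 : y ≠ 0 := by
    intro h; rw [h] at hyneg; linarith
  have hg0 : g ≠ 0 := by
    intro h
    apply hy0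
    rw [hydef, h, zero_mul]
  have hinv : 1 / g = k' ^ 2 / y := by
    rw [hydef]
    field_simp
  refine ⟨ht1, ht2, ?_, hg0, ?_, ?_, ?_⟩
  · have h1 : ‖E' 1‖ * k' ≤ 2 * π + C * k' := by
      have h2 : ‖E' 1 * κ'‖ ≤ ‖E' 1 * κ' - 2 * π * I‖ + ‖(2 * π * I : ℂ)‖ := by
        have := norm_add_le (E' 1 * κ' - 2 * π * I) (2 * π * I : ℂ)
        rwa [sub_add_cancel] at this
      have h3 : ‖(2 * π * I : ℂ)‖ = 2 * π := by
        rw [norm_mul, norm_mul, Complex.norm_I, Complex.norm_real, Real.norm_eq_abs,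
          abs_of_pos Real.pi_pos, Complex.norm_ofNat, mul_one]
      rw [norm_mul] at h2
      linarith
    have h2 : t * ‖E' 1‖ ≤ 3 * k' / 8 * ‖E' 1‖ := by
      gcongr
      linarith
    nlinarith
  · rw [hinv, abs_div, abs_of_nonneg (by positivity : 0 ≤ k' ^ 2)]
    calc k' ^ 2 / |y| ≤ k' ^ 2 / 1 := by gcongr
      _ ≤ 1 * k ^ 2 := by linarith
      _ ≤ (C + 10) * k ^ 2 := by gcongr; linarith
  · have e : 1 / g + k' ^ 2 / (2 * π) = k' ^ 2 * ((y + 2 * π) / (2 * π * y)) := by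
      rw [hinv]
      field_simp
      ring
    rw [e, abs_mul, abs_of_nonneg (by positivity : 0 ≤ k' ^ 2), abs_div, abs_mul,
      abs_of_pos (by positivity : 0 < 2 * π)]
    have h1 : |y + 2 * π| / (2 * π * |y|) ≤ (C + 10) * k := by
      rw [div_le_iff₀ (by positivity)]
      have h2 : 1 ≤ 2 * π * |y| := by nlinarith
      calc |y + 2 * π| ≤ (C + 10) * k * 1 := by linarith
        _ ≤ (C + 10) * k * (2 * π * |y|) := by gcongr
    calc k' ^ 2 * (|y + 2 * π| / (2 * π * |y|)) ≤ k ^ 2 * ((C + 10) * k) := by gcongr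
      _ = (C + 10) * k ^ 3 := by ring
  · have h1 : C * k ^ 3 ≤ 1 / 100 * k ^ 2 := by
      calc C * k ^ 3 = (C * k) * k ^ 2 := by ring
        _ ≤ 1 / 100 * k ^ 2 := by gcongr
    have h2 : k ^ 2 / 7 ≤ k ^ 2 / (2 * π) := by
      gcongr
      linarith
    have h3 : β ≤ - (k ^ 2 / 10) := by
      have := (abs_le.mp hβ).2
      nlinarith [sq_nonneg k]
    have h4 : k ^ 2 / 10 ≤ |β| := by
      rw [abs_of_nonpos (by nlinarith [sq_nonneg k])]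
      linarith
    have h5 : 0 ≤ |β| := abs_nonneg _
    nlinarith

end FB.Eig
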