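import Mathlib
import Pool.Agent.FB.Iface
import Pool.Agent.FB.Eig.Par
import Pool.Agent.FB.Eig.Eq2

/-!
# Theorem EIG (MP_15d50e_gt)
-/

open Complex Set
open scoped ComplexConjugate Real

namespace FB.Eig

theorem sigma_near {C K K' M B k u σ β β' r : ℝ} (hk : 0 < k) (hK : 1 ≤ K) (hu0 : 0 ≤ u)
    (hu : u ≤ 1) (hβ : k ^ 2 ≤ K * |β|) (h1 : |β' + u * k ^ 2 / (2 * π)| ≤ B * k ^ 3)
    (h2 : |β + k ^ 2 / (2 * π)| ≤ C * k ^ 3) (h3 : |r| ≤ M * k ^ 3) (h4 : σ * β = β' + r)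
    (hK' : K * (B + M + C) ≤ K') : |σ - u| ≤ K' * k := by
  have e1 : (σ - u) * β = (β' + u * k ^ 2 / (2 * π)) + r - u * (β + k ^ 2 / (2 * π)) := by
    rw [sub_mul, h4]; ring
  have hC0 : 0 ≤ C * k ^ 3 := (abs_nonneg _).trans h2
  have e2 : |u * (β + k ^ 2 / (2 * π))| ≤ C * k ^ 3 := by
    rw [abs_mul, abs_of_nonneg hu0]
    calc u * |β + k ^ 2 / (2 * π)| ≤ 1 * (C * k ^ 3) :=
          mul_le_mul hu h2 (abs_nonneg _) (by norm_num)
      _ = _ := one_mul _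
  have e3 : |σ - u| * |β| ≤ (B + M + C) * k ^ 3 := by
    rw [← abs_mul, e1]
    have a1 := abs_sub ((β' + u * k ^ 2 / (2 * π)) + r) (u * (β + k ^ 2 / (2 * π)))
    have a2 := abs_add_le (β' + u * k ^ 2 / (2 * π)) r
    linarith
  have e4 : |σ - u| * k ^ 2 ≤ K' * k * k ^ 2 := by
    calc |σ - u| * k ^ 2 ≤ |σ - u| * (K * |β|) := mul_le_mul_of_nonneg_left hβ (abs_nonneg _)
      _ = K * (|σ - u| * |β|) := by ring
      _ ≤ K * ((B + M + C) * k ^ 3) := mul_le_mul_of_nonneg_left e3 (by linarith)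
      _ = K * (B + M + C) * k ^ 3 := by ring
      _ ≤ K' * k ^ 3 := mul_le_mul_of_nonneg_right hK' (by positivity)
      _ = _ := by ring
  exact le_of_mul_le_mul_right e4 (by positivity)

/-- THEOREM EIG. -/
theorem theoremEIG : TheoremEIG := by
  intro C hC
  obtain ⟨K₀, κ₁, hK₀, hκ₁, hpar⟩ := eig_params C hC
  obtain ⟨K, hKdef⟩ : ∃ K, K = 10 * (1 + C) * (1 + K₀) ^ 2 := ⟨_, rfl⟩
  have hK1 : 1 ≤ K := by rw [hKdef]; exact (bd_consts hC.le hK₀).1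
  obtain ⟨B, hB⟩ : ∃ B, B = K₀ + 4 * K ^ 3 := ⟨_, rfl⟩
  obtain ⟨M, hM⟩ : ∃ M, M = 7 * K ^ 3 * (1 + 3 * K ^ 2) := ⟨_, rfl⟩
  have hB0 : 0 ≤ B := by rw [hB]; positivity
  have hM0 : 0 ≤ M := by rw [hM]; positivity
  obtain ⟨C', hC'⟩ : ∃ C', C' = K₀ * (B + M + C) + B + 4 * K ^ 2 := ⟨_, rfl⟩
  have hc0 : 0 ≤ K₀ * (B + M + C) := by positivity
  have hc1 : K₀ * (B + M + C) ≤ C' := by rw [hC']; nlinarith
  have hc2 : B ≤ C' := by rw [hC']; nlinarith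
  have hc3 : 4 * K ^ 2 ≤ C' := by rw [hC']; linarith
  have hC'0 : 0 < C' := by
    have : 0 < 4 * K ^ 2 := by positivity
    linarith
  refine ⟨C', min κ₁ (min (1 / 2) (1 / (1000 * K ^ 6))), hC'0, ?_, ?_⟩
  · have : 0 < 1 / (1000 * K ^ 6) := by positivity
    exact lt_min hκ₁ (lt_min (by norm_num) this)
  intro κ κ' hκ0 hκ hκκ' hκ'κ E γ t β a b hLB hF E' γ' hLB'
  have hk1 : ‖κ‖ ≤ κ₁ := hκ.trans (min_le_left _ _)
  have hk2 : ‖κ‖ ≤ 1 / 2 := hκ.trans ((min_le_right _ _).trans (min_le_left _ _))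
  have hk3 : ‖κ‖ ≤ 1 / (1000 * K ^ 6) := hκ.trans ((min_le_right _ _).trans (min_le_right _ _))
  have hs : 1000 * K ^ 6 * ‖κ‖ ≤ 1 := by
    rw [le_div_iff₀ (by positivity)] at hk3
    linarith
  obtain ⟨p1, p2, p3, p4, p5, p6, p7⟩ := hpar κ κ' hκ0 hk1 hκκ' hκ'κ E γ t β a b hF E' γ' hLB'
  have hpi := Real.pi_gt_three
  have hβ2 : |β| ≤ (1 + C) * ‖κ‖ ^ 2 := by
    have h1 := hF.βnear
    have h2 : |β| ≤ |β + ‖κ‖ ^ 2 / (2 * π)| + |‖κ‖ ^ 2 / (2 * π)| := by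
      have := abs_sub (β + ‖κ‖ ^ 2 / (2 * π)) (‖κ‖ ^ 2 / (2 * π))
      rwa [add_sub_cancel_right] at this
    have h3 : |‖κ‖ ^ 2 / (2 * π)| ≤ ‖κ‖ ^ 2 := by
      rw [abs_of_nonneg (by positivity)]
      exact div_le_self (by positivity) (by linarith)
    have h4 : C * ‖κ‖ ^ 3 ≤ C * ‖κ‖ ^ 2 := by
      apply mul_le_mul_of_nonneg_left _ hC.le
      exact pow_le_pow_of_le_one hκ0.le (by linarith) (by norm_num)
    linarith
  have hP : Par C K₀ ‖κ‖ E' γ' t β a b :=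
    { hC := hC.le
      hK := hK₀
      hk := hκ0
      hk1 := hk2
      t0 := lt_of_lt_of_le (by positivity) p1
      t1 := p2
      e1 := p3
      ej := hLB'.ej
      ne := p4
      p0 := p5
      β1 := p7
      β2 := hβ2
      fs := (Fo_bound hF).1
      fb := (Fo_bound hF).2
      ds := (Do_bound hF).1
      db := (Do_bound hF).2 }
  have hbd : hP.data.Bd K ‖κ‖ := by
    rw [hKdef]
    exact hP.bd (by rw [← hKdef]; exact hs)
  obtain ⟨σ, x, hσ, hx, hfix, heq⟩ := EData.exists_fix hbd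
  have hal := EData.norm_al_le hbd hx
  have f1 : |hP.data.fF (hP.data.al x - x)| ≤ K * ‖κ‖ ^ 3 * (7 * K ^ 2 * ‖κ‖ ^ 2) :=
    EData.norm_apply_le _ hbd.fF (EData.norm_sub_al_le hbd hx) (by positivity)
  have f2 : |hP.data.fG (hP.data.al x + x)| ≤ K * ‖κ‖ ^ 3 * (7 * K ^ 2 * ‖κ‖ ^ 2) :=
    EData.norm_apply_le _ hbd.fG (EData.norm_add_al_le hbd hx) (by positivity)
  have f3 : |hP.data.l x| ≤ K * ‖κ‖ ^ 2 * (4 * K ^ 2 * ‖κ‖ ^ 2) :=
    EData.norm_apply_le _ hbd.l hx (by positivity)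
  have hk43 : ‖κ‖ ^ 4 ≤ ‖κ‖ ^ 3 := pow_le_pow_of_le_one hκ0.le (by linarith) (by norm_num)
  have hk53 : ‖κ‖ ^ 5 ≤ ‖κ‖ ^ 3 := pow_le_pow_of_le_one hκ0.le (by linarith) (by norm_num)
  have hβ'near : |hP.data.be x + ‖κ'‖ ^ 2 / (2 * π)| ≤ B * ‖κ‖ ^ 3 := by
    have g1 : hP.data.be x + ‖κ'‖ ^ 2 / (2 * π) =
        (1 / (γ' + Real.log t) + ‖κ'‖ ^ 2 / (2 * π)) + hP.data.l x := by
      have : hP.data.be x = 1 / (γ' + Real.log t) + hP.data.l x := rfl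
      rw [this]; ring
    rw [g1, hB]
    have g2 := abs_add_le (1 / (γ' + Real.log t) + ‖κ'‖ ^ 2 / (2 * π)) (hP.data.l x)
    have g3 : K * ‖κ‖ ^ 2 * (4 * K ^ 2 * ‖κ‖ ^ 2) = 4 * K ^ 3 * ‖κ‖ ^ 4 := by ring
    have g4 : 4 * K ^ 3 * ‖κ‖ ^ 4 ≤ 4 * K ^ 3 * ‖κ‖ ^ 3 :=
      mul_le_mul_of_nonneg_left hk43 (by positivity)
    linarith
  have hr : |hP.data.fF (hP.data.al x - x) - σ * hP.data.fG (hP.data.al x + x)| ≤
      M * ‖κ‖ ^ 3 := by
    have g1 := abs_sub (hP.data.fF (hP.data.al x - x)) (σ * hP.data.fG (hP.data.al x + x))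
    have g2 : |σ * hP.data.fG (hP.data.al x + x)| ≤
        3 * K ^ 2 * (K * ‖κ‖ ^ 3 * (7 * K ^ 2 * ‖κ‖ ^ 2)) := by
      rw [abs_mul]
      exact mul_le_mul hσ f2 (abs_nonneg _) (by positivity)
    have g3 : K * ‖κ‖ ^ 3 * (7 * K ^ 2 * ‖κ‖ ^ 2) +
        3 * K ^ 2 * (K * ‖κ‖ ^ 3 * (7 * K ^ 2 * ‖κ‖ ^ 2)) = M * ‖κ‖ ^ 5 := by
      rw [hM]; ring
    have g4 : M * ‖κ‖ ^ 5 ≤ M * ‖κ‖ ^ 3 := mul_le_mul_of_nonneg_left hk53 hM0
    linarith
  refine ⟨σ, hP.data.be x, un (hP.data.al x), un x, ?_⟩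
  have hu : ‖κ'‖ ^ 2 / ‖κ‖ ^ 2 * ‖κ‖ ^ 2 = ‖κ'‖ ^ 2 := div_mul_cancel₀ _ (by positivity)
  exact
    { σnear := by
        refine sigma_near (B := B) (M := M) (β := β) (β' := hP.data.be x)
          (r := hP.data.fF (hP.data.al x - x) - σ * hP.data.fG (hP.data.al x + x)) hκ0 hK₀
          (by positivity) ?_ p7 (by rw [hu]; exact hβ'near) hF.βnear hr ?_ hc1
        · rw [div_le_one (by positivity)]
          exact pow_le_pow_left₀ (norm_nonneg _) hκ'κ 2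
        · have hb : hP.data.β = β := rfl
          rw [hb] at heq
          linarith
      βnear := hβ'near.trans (mul_le_mul_of_nonneg_right hc2 (by positivity))
      b0 := by
        have h0 := hP.xn_zero σ x
        rw [hfix] at h0
        rw [un, h0, zero_div]
      asmall := wbound_un (hal.trans (by
        have h9 : 3 * K ^ 2 ≤ C' := by
          have : 0 ≤ K ^ 2 := by positivity
          linarith
        exact mul_le_mul_of_nonneg_right h9 (by positivity)))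
      bsmall := wbound_un (hx.trans (mul_le_mul_of_nonneg_right hc3 (by positivity)))
      adef := hP.reg x
      one := hP.one x
      eq2 := hP.eq_all hfix heq }

end FB.Eig
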